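import Pool.Agent.Lib_MP_0cf6e1_b.Defs

set_option autoImplicit false

open scoped Classical

namespace Pool.Agent.BoolWidth

/-- a closed walk without backtracking inside `K` when all vertices have two neighbours in `K` -/
theorem forest_walk {V : Type} (E : V → V → Prop) (K : Finset V) (hne : K.Nonempty)
    (h2 : ∀ v ∈ K, 2 ≤ (K.filter fun u => Adj E v u).card) :
    ∃ c : ℕ → V, (∀ i, c i ∈ K) ∧ (∀ i, Adj E (c i) (c (i + 1))) ∧ ∀ i, c i ≠ c (i + 2) := by
  have hnext : ∀ u v, ∃ w, v ∈ K → w ∈ K ∧ Adj E v w ∧ w ≠ u := by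
    intro u v
    by_cases hv : v ∈ K
    · have h3 : 0 < ((K.filter fun u => Adj E v u).erase u).card := by
        have := Finset.pred_card_le_card_erase (a := u) (s := K.filter fun u => Adj E v u)
        have := h2 v hv
        omega
      obtain ⟨w, hw⟩ := Finset.card_pos.1 h3
      rw [Finset.mem_erase, Finset.mem_filter] at hw
      exact ⟨w, fun _ => ⟨hw.2.1, hw.2.2, hw.1⟩⟩
    · exact ⟨u, fun h => absurd h hv⟩
  choose f hf using hnext
  obtain ⟨v0, hv0⟩ := hne
  obtain ⟨v1, hv1, hadj, -⟩ : ∃ v1, v1 ∈ K ∧ Adj E v0 v1 ∧ v1 ≠ f v0 v0 := ⟨_, hf (f v0 v0) v0 hv0⟩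
  let p : ℕ → V × V := fun n => Nat.rec (v0, v1) (fun _ q => (q.2, f q.1 q.2)) n
  have hp : ∀ n, (p n).1 ∈ K ∧ (p n).2 ∈ K ∧ Adj E (p n).1 (p n).2 := by
    intro n
    induction n with
    | zero => exact ⟨hv0, hv1, hadj⟩
    | succ n ih =>
      obtain ⟨e1, e2, e3⟩ := hf (p n).1 (p n).2 ih.2.1
      exact ⟨ih.2.1, e1, e2⟩
  refine ⟨fun n => (p n).1, fun n => (hp n).1, fun n => (hp n).2.2, ?_⟩
  intro n
  obtain ⟨-, -, e3⟩ := hf (p n).1 (p n).2 (hp n).2.1
  exact e3.symm

/-- deleting a vertex of degree at most one -/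
theorem eIn_erase_le {V : Type} (E : V → V → Prop) (ha : Asym E) (K : Finset V) (v : V)
    (h1 : (K.filter fun u => Adj E v u).card ≤ 1) : eIn E K ≤ eIn E (K.erase v) + 1 := by
  have hsub : ((K ×ˢ K).filter fun p => E p.1 p.2) ⊆
      (((K.erase v) ×ˢ (K.erase v)).filter fun p => E p.1 p.2) ∪
        (K.filter fun u => Adj E v u).image (fun u => if E v u then (v, u) else (u, v)) := by
    intro p hp
    rw [Finset.mem_filter, Finset.mem_product] at hp
    rw [Finset.mem_union, Finset.mem_filter, Finset.mem_product, Finset.mem_image]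
    by_cases h3 : p.1 = v
    · right
      refine ⟨p.2, ?_, ?_⟩
      · rw [Finset.mem_filter]
        exact ⟨hp.1.2, Or.inl (h3 ▸ hp.2)⟩
      · rw [if_pos (h3 ▸ hp.2), ← h3]
    · by_cases h4 : p.2 = v
      · right
        refine ⟨p.1, ?_, ?_⟩
        · rw [Finset.mem_filter]
          exact ⟨hp.1.1, Or.inr (h4 ▸ hp.2)⟩
        · have h5 : ¬ E v p.1 := ha _ _ (h4 ▸ hp.2)
          rw [if_neg h5, ← h4]
      · left
        exact ⟨⟨Finset.mem_erase.2 ⟨h3, hp.1.1⟩, Finset.mem_erase.2 ⟨h4, hp.1.2⟩⟩, hp.2⟩
  have h3 := Finset.card_le_card hsub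
  have h4 := Finset.card_union_le ((((K.erase v) ×ˢ (K.erase v)).filter fun p => E p.1 p.2))
    ((K.filter fun u => Adj E v u).image (fun u => if E v u then (v, u) else (u, v)))
  have h5 := Finset.card_image_le (s := K.filter fun u => Adj E v u)
    (f := fun u => if E v u then (v, u) else (u, v))
  simp only [eIn]
  omega

/-- sets smaller than the girth span forests -/
theorem forest_eIn {V : Type} (E : V → V → Prop) (ha : Asym E) (g : ℕ) (hg : Gir E g)
    (K : Finset V) (hne : K.Nonempty) (hK : K.card ≤ g) : eIn E K + 1 ≤ K.card := by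
  induction hn : K.card using Nat.strong_induction_on generalizing K with
  | _ n ih =>
    by_cases h2 : ∀ v ∈ K, 2 ≤ (K.filter fun u => Adj E v u).card
    · exfalso
      obtain ⟨c, hc1, hc2, hc3⟩ := forest_walk E K hne h2
      obtain ⟨i, hi, j, hj, hij, hcij⟩ := Finset.exists_ne_map_eq_of_card_lt_of_maps_to
        (s := Finset.range (K.card + 1)) (t := K) (f := c) (by rw [Finset.card_range]; omega)
        (fun i _ => hc1 i)
      rw [Finset.mem_range] at hi hj
      wlog hlt : i < j generalizing i j
      · exact this j hj i hi hij.symm hcij.symm (by omega)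
      refine hg (fun t => c (i + t)) (j - i) (by omega) (by omega) ⟨?_, ?_⟩ ?_
      · intro t _
        exact hc2 (i + t)
      · intro t _
        exact hc3 (i + t)
      · show c (i + 0) = c (i + (j - i))
        rw [show i + (j - i) = j by omega, Nat.add_zero]
        exact hcij
    · push Not at h2
      obtain ⟨v, hv, h1⟩ := h2
      have h3 := eIn_erase_le E ha K v (by omega)
      have hc := Finset.card_erase_of_mem hv
      have hpos := Finset.card_pos.2 hne
      rcases (K.erase v).eq_empty_or_nonempty with h0 | h0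
      · have h4 : K = {v} := by
          rw [Finset.erase_eq_empty_iff] at h0
          rcases h0 with h0 | h0
          · exact absurd h0 hne.ne_empty
          · exact h0
        have h5 : eIn E K = 0 := by
          rw [h4, eIn, Finset.card_eq_zero, Finset.filter_eq_empty_iff]
          intro p hp he
          rw [Finset.mem_product, Finset.mem_singleton, Finset.mem_singleton] at hp
          rw [hp.1, hp.2] at he
          exact ha v v he he
        omega
      · have := ih (K.erase v).card (by omega) (K.erase v) h0 (by omega) rfl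
        omega

end Pool.Agent.BoolWidth
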