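import Pool.Agent.Lib_MP_0cf6e1_b.PBox
import Pool.Agent.Lib_MP_0cf6e1_t.Forest

/-!
# Counting arcs inside the blocks of one order
-/

set_option autoImplicit false

open scoped Classical

namespace Pool.Agent.BoolWidth

/-- the labels of `PLab`, with the additional fact that a block has one label -/
theorem labels2 {V : Type} [Fintype V] (R : V → V → Prop) (htr : ∀ u v t, R u v → R v t → R u t)
    (hco : ∀ u v t, ¬ R u v → ¬ R v t → ¬ R u t) (s : ℕ) (hs : 1 ≤ s) :
    ∃ lab : V → Fin (2 * (Fintype.card V / s) + 2),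
      (∀ i, Even i.val → (Finset.univ.filter (fun v => lab v = i)).card ≤ s) ∧
      (∀ u v u' v', lab u = lab v → lab u' = lab v' → ¬ (lab v = lab v' ∧ Even (lab v).val) →
        (R u u' ↔ R v v')) ∧ ∀ u v, weq R u v → lab u = lab v := by
  refine ⟨fun v => ⟨wlab R s v, wlab_lt R htr hco s hs v⟩, ?_, ?_, ?_⟩
  · intro i hi
    have h1 := wlab_even R htr hco s hs i.val hi
    have h2 : Finset.univ.filter (fun v => (⟨wlab R s v, wlab_lt R htr hco s hs v⟩ :
        Fin (2 * (Fintype.card V / s) + 2)) = i) = Finset.univ.filter (fun v => wlab R s v = i.val) := by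
      apply Finset.filter_congr
      intro v _
      rw [Fin.ext_iff]
    rw [h2]
    exact h1
  · intro u v u' v' h1 h2 h3
    apply wR_iff R htr hco u v u' v' (wlab R s) (fun a b h => wlab_mono R htr hco s hs a b h)
      (fun a b h => wlab_eq R htr hco s a b h) (fun a b h h' => wlab_odd R htr hco s hs a b h h')
    · exact congrArg Fin.val h1
    · exact congrArg Fin.val h2
    · rintro ⟨h4, h5⟩
      exact h3 ⟨Fin.ext h4, h5⟩
  · intro u v h
    exact Fin.ext (wlab_eq R htr hco s u v h)

/-- `bad_count` with a general constant -/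
theorem bad_count2 {w : ℕ} {V : Type} [Fintype V] (M : MG w V) (s b Q : ℕ) (lab : V → Fin Q)
    (hsize : ∀ i : Fin Q, Even i.val → (Finset.univ.filter (fun v => lab v = i)).card ≤ s)
    (hsp : ∀ S : Finset V, S.card ≤ s → b * eIn M.E S ≤ (b + 2) * S.card) :
    b * ((arcs M).filter (fun p => lab p.1 = lab p.2 ∧ Even (lab p.1).val)).card ≤
      (b + 2) * Fintype.card V := by
  set B := (arcs M).filter (fun p => lab p.1 = lab p.2 ∧ Even (lab p.1).val) with hB
  have h1 : B.card = ∑ i : Fin Q, (B.filter (fun p => lab p.1 = i)).card :=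
    Finset.card_eq_sum_card_fiberwise (f := fun p : V × V => lab p.1) (t := Finset.univ) (fun _ _ => Finset.mem_coe.2 (Finset.mem_univ _))
  have h2 : Fintype.card V = ∑ i : Fin Q, (Finset.univ.filter (fun v => lab v = i)).card := by
    rw [← Finset.card_univ]
    exact Finset.card_eq_sum_card_fiberwise (f := lab) (t := Finset.univ) (fun _ _ => Finset.mem_coe.2 (Finset.mem_univ _))
  rw [h1, h2, Finset.mul_sum, Finset.mul_sum]
  apply Finset.sum_le_sum
  intro i _
  by_cases hi : Even i.val
  · have h3 := hsp _ (hsize i hi)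
    refine le_trans (Nat.mul_le_mul_left _ (Finset.card_le_card ?_)) h3
    intro p hp
    obtain ⟨hp1, hp2⟩ := Finset.mem_filter.1 hp
    obtain ⟨hp3, hp4, hp5⟩ := Finset.mem_filter.1 hp1
    have hE := (Finset.mem_filter.1 hp3).2
    rw [Finset.mem_filter, Finset.mem_product, Finset.mem_filter, Finset.mem_filter]
    exact ⟨⟨⟨Finset.mem_univ _, hp2⟩, ⟨Finset.mem_univ _, by rw [← hp4, hp2]⟩⟩, hE⟩
  · have h3 : B.filter (fun p => lab p.1 = i) = ∅ := by
      rw [Finset.filter_eq_empty_iff]
      intro p hp hpi
      obtain ⟨hp3, hp4, hp5⟩ := Finset.mem_filter.1 hp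
      rw [hpi] at hp5
      exact hi hp5
    rw [h3]
    simp

/-- blocks are the fibres of `wb` -/
theorem weq_iff_wb {V : Type} [Fintype V] (R : V → V → Prop) (htr : ∀ u v t, R u v → R v t → R u t)
    (hco : ∀ u v t, ¬ R u v → ¬ R v t → ¬ R u t) (u v : V) : weq R u v ↔ wb R u = wb R v := by
  constructor
  · exact wb_eq R htr hco u v
  · intro h
    rcases wtri R u v with h1 | h1 | h1
    · have h2 := wb_lt R htr hco u v h1
      have h3 := wsz_pos R u
      omega
    · have h2 := wb_lt R htr hco v u h1
      have h3 := wsz_pos R v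
      omega
    · exact h1

/-- arcs inside small blocks of `R` -/
theorem small_count {w : ℕ} {V : Type} [Fintype V] (M : MG w V) (s g b : ℕ) (hg : Gir M.E g)
    (hsp : ∀ S : Finset V, S.card ≤ s → b * eIn M.E S ≤ (b + 2) * S.card)
    (R : V → V → Prop) (htr : ∀ u v t, R u v → R v t → R u t)
    (hco : ∀ u v t, ¬ R u v → ¬ R v t → ¬ R u t) (Y : Finset V)
    (hY : ∀ u ∈ Y, ∀ v ∈ Y, u ≠ v → ¬ weq R u v) :
    ∃ z : ℕ, g * z ≤ Fintype.card V ∧
      b * ((arcs M).filter (fun p => weq R p.1 p.2 ∧ wsz R p.1 ≤ s)).card + b * Y.card ≤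
        (b + 2) * Fintype.card V + b * z := by
  set I : Finset ℕ := Finset.univ.image (wb R) with hI
  set K : ℕ → Finset V := fun i => Finset.univ.filter (fun v => wb R v = i) with hK
  set B := (arcs M).filter (fun p => weq R p.1 p.2 ∧ wsz R p.1 ≤ s) with hB
  have hw := weq_iff_wb R htr hco
  have h1 : B.card = ∑ i ∈ I, (B.filter (fun p => wb R p.1 = i)).card :=
    Finset.card_eq_sum_card_fiberwise (f := fun p : V × V => wb R p.1) (t := I)
      (fun p _ => Finset.mem_coe.2 (Finset.mem_image_of_mem _ (Finset.mem_univ _)))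
  have h2 : Fintype.card V = ∑ i ∈ I, (K i).card := by
    rw [← Finset.card_univ]
    exact Finset.card_eq_sum_card_fiberwise (f := wb R) (t := I)
      (fun p _ => Finset.mem_coe.2 (Finset.mem_image_of_mem _ (Finset.mem_univ _)))
  have h3 : Y.card ≤ I.card := by
    apply Finset.card_le_card_of_injOn (wb R)
    · intro u _
      exact Finset.mem_coe.2 (Finset.mem_image_of_mem _ (Finset.mem_univ _))
    · intro u hu v hv huv
      by_contra hne
      exact hY u (Finset.mem_coe.1 hu) v (Finset.mem_coe.1 hv) hne ((hw u v).2 huv)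
  refine ⟨(I.filter (fun i => ¬ (K i).card ≤ g)).card, ?_, ?_⟩
  · calc g * (I.filter (fun i => ¬ (K i).card ≤ g)).card = ∑ i ∈ I.filter (fun i => ¬ (K i).card ≤ g), g := by
          rw [Finset.sum_const, smul_eq_mul, mul_comm]
      _ ≤ ∑ i ∈ I.filter (fun i => ¬ (K i).card ≤ g), (K i).card := by
          apply Finset.sum_le_sum
          intro i hi
          have := (Finset.mem_filter.1 hi).2
          omega
      _ ≤ ∑ i ∈ I, (K i).card := Finset.sum_le_sum_of_subset (Finset.filter_subset _ _)
      _ = Fintype.card V := h2.symm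
  · have hblock : ∀ i ∈ I, b * (B.filter (fun p => wb R p.1 = i)).card +
        b * (if (K i).card ≤ g then 1 else 0) ≤ (b + 2) * (K i).card := by
      intro i hi
      obtain ⟨v0, -, hv0⟩ := Finset.mem_image.1 hi
      have hne : (K i).Nonempty := ⟨v0, Finset.mem_filter.2 ⟨Finset.mem_univ _, hv0⟩⟩
      have hpos : 1 ≤ (K i).card := hne.card_pos
      have hsub : (B.filter (fun p => wb R p.1 = i)).card ≤ eIn M.E (K i) := by
        unfold eIn
        apply Finset.card_le_card
        intro p hp
        obtain ⟨hp1, hp2⟩ := Finset.mem_filter.1 hp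
        obtain ⟨hp3, hp4, hp5⟩ := Finset.mem_filter.1 hp1
        have hE := (Finset.mem_filter.1 hp3).2
        have hp6 := (hw _ _).1 hp4
        rw [Finset.mem_filter, Finset.mem_product, Finset.mem_filter, Finset.mem_filter]
        exact ⟨⟨⟨Finset.mem_univ _, hp2⟩, ⟨Finset.mem_univ _, by rw [← hp6, hp2]⟩⟩, hE⟩
      have hempty : s < (K i).card → (B.filter (fun p => wb R p.1 = i)).card = 0 := by
        intro hs
        rw [Finset.card_eq_zero, Finset.filter_eq_empty_iff]
        intro p hp hpi
        obtain ⟨hp3, hp4, hp5⟩ := Finset.mem_filter.1 hp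
        have h6 : wsz R p.1 = (K i).card := by
          unfold wsz
          congr 1
          apply Finset.filter_congr
          intro u _
          rw [hw, hpi]
        omega
      by_cases hgi : (K i).card ≤ g
      · rw [if_pos hgi]
        by_cases hsi : (K i).card ≤ s
        · have h6 := forest_eIn M.E M.asym g hg (K i) hne hgi
          have h7 : b * (B.filter (fun p => wb R p.1 = i)).card + b * 1 ≤ b * (K i).card := by
            rw [← Nat.mul_add]
            exact Nat.mul_le_mul_left _ (by omega)
          refine h7.trans (Nat.mul_le_mul_right _ (by omega))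
        · rw [hempty (by omega)]
          have h7 : b * 1 ≤ (b + 2) * (K i).card := Nat.mul_le_mul (by omega) hpos
          omega
      · rw [if_neg hgi]
        by_cases hsi : (K i).card ≤ s
        · have h6 := hsp (K i) hsi
          have h7 := Nat.mul_le_mul_left b hsub
          omega
        · rw [hempty (by omega)]
          simp
    have hsum := Finset.sum_le_sum hblock
    rw [Finset.sum_add_distrib, ← Finset.mul_sum, ← Finset.mul_sum, ← Finset.mul_sum, ← h1, ← h2,
      ← Finset.card_filter] at hsum
    have hsplit : (I.filter (fun i => (K i).card ≤ g)).card + (I.filter (fun i => ¬ (K i).card ≤ g)).card = I.card :=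
      Finset.card_filter_add_card_filter_not _
    have h4 : b * Y.card ≤ b * (I.filter (fun i => (K i).card ≤ g)).card +
        b * (I.filter (fun i => ¬ (K i).card ≤ g)).card := by
      rw [← Nat.mul_add, hsplit]
      exact Nat.mul_le_mul_left _ h3
    omega

end Pool.Agent.BoolWidth
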