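import Pool.Agent.Lib_MP_0cf6e1_b.PBox

/-!
# Arcs between different blocks of one order
-/

set_option autoImplicit false

open scoped Classical

namespace Pool.Agent.BoolWidth

/-- arcs between different blocks of the order `j` which are in no common even class of the other orders -/
theorem dir_count {w : ℕ} {V : Type} [Fintype V] (M : MG w V) (d n Q : ℕ)
    (L : Fin d → V × Fin n → V × Fin n → Prop)
    (τ : (Fin d → Prop) → Prop) (hL : ∀ i, IsStrictTotalOrder (V × Fin n) (L i))
    (hτ : ∀ x y, x ≠ y → (liftLt M.lt M.E (fun _ _ => 0) n x y ↔ τ (fun i => L i x y)))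
    (z1 z2 : Fin n) (hz : z1 < z2) (lab : Fin d → V → Fin Q) (j : Fin d)
    (hlab : ∀ k, k ≠ j → ∀ u v u' v', lab k u = lab k v → lab k u' = lab k v' →
        ¬ (lab k v = lab k v' ∧ Even (lab k v).val) →
        (L k (u, z1) (u', z2) ↔ L k (v, z1) (v', z2)))
    (htr : ∀ u v t, L j (u, z1) (v, z2) → L j (v, z1) (t, z2) → L j (u, z1) (t, z2))
    (hco : ∀ u v t, ¬ L j (u, z1) (v, z2) → ¬ L j (v, z1) (t, z2) → ¬ L j (u, z1) (t, z2)) :
    ((arcs M).filter (fun p => (¬ weq (fun u v => L j (u, z1) (v, z2)) p.1 p.2) ∧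
      ∀ k, k ≠ j → ¬ (lab k p.1 = lab k p.2 ∧ Even (lab k p.1).val))).card ≤ 2 * (w ^ 2 * Q ^ d) := by
  set R : V → V → Prop := fun u v => L j (u, z1) (v, z2) with hR
  set G := (arcs M).filter (fun p => (¬ weq R p.1 p.2) ∧
      ∀ k, k ≠ j → ¬ (lab k p.1 = lab k p.2 ∧ Even (lab k p.1).val)) with hG
  have key : ∀ v v' u : V, (v, v') ∈ G → M.ch u = M.ch v → (∀ k, lab k u = lab k v) →
      (R u v' ↔ R v v') → (R v' u ↔ R v' v) → M.E u v' := by
    intro v v' u hv hcu hlu hr1 hr2
    obtain ⟨hv1, -, hv2⟩ := Finset.mem_filter.1 hv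
    have hE : M.E v v' := (Finset.mem_filter.1 hv1).2
    have hcv : M.ch v ≠ M.ch v' := M.ech _ _ hE
    have hvne : v ≠ v' := fun h => hcv (by rw [h])
    have hune : u ≠ v' := fun h => hcv (by rw [← hcu, h])
    rw [arc_iff M n z1 z2 hz v v' hvne] at hE
    rw [arc_iff M n z1 z2 hz u v' hune]
    have hflip : ∀ (k : Fin d) (a b : V), a ≠ b → (L k (a, z2) (b, z1) ↔ ¬ L k (b, z1) (a, z2)) := by
      intro k a b hab
      have := hL k
      constructor
      · intro h h'
        exact (asymm_of (L k) h) h'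
      · intro h
        rcases trichotomous_of (L k) (a, z2) (b, z1) with h' | h' | h'
        · exact h'
        · exact absurd (congrArg Prod.fst h') hab
        · exact absurd h' h
    have e1 : (fun k => L k (u, z1) (v', z2)) = fun k => L k (v, z1) (v', z2) := by
      funext k
      by_cases hk : k = j
      · subst hk
        exact propext hr1
      · exact propext (hlab k hk u v v' v' (hlu k) rfl (hv2 k hk))
    have e2 : (fun k => L k (u, z2) (v', z1)) = fun k => L k (v, z2) (v', z1) := by
      funext k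
      have h1 : L k (v', z1) (u, z2) ↔ L k (v', z1) (v, z2) := by
        by_cases hk : k = j
        · subst hk
          exact hr2
        · apply hlab k hk v' v' u v rfl (hlu k)
          rintro ⟨h2, h3⟩
          exact hv2 k hk ⟨h2.symm, by rw [h2] at h3; exact h3⟩
      apply propext
      rw [hflip k u v' hune, hflip k v v' hvne, h1]
    rw [hτ _ _ (by intro h; exact hune (congrArg Prod.fst h)), hτ _ _ (by intro h; exact hune (congrArg Prod.fst h)),
      e1, e2, ← hτ _ _ (by intro h; exact hvne (congrArg Prod.fst h)), ← hτ _ _ (by intro h; exact hvne (congrArg Prod.fst h))]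
    exact hE
  have hinj : Set.InjOn (fun p : V × V => (((M.ch p.1, M.ch p.2), fun k => lab k p.1), decide (R p.1 p.2)))
      (G : Set (V × V)) := by
    rintro ⟨v, v'⟩ hv ⟨u, u'⟩ hu heq
    simp only [Prod.mk.injEq, decide_eq_decide] at heq
    obtain ⟨⟨⟨h1, h2⟩, h3⟩, h4⟩ := heq
    have hv' := Finset.mem_coe.1 hv
    have hu' := Finset.mem_coe.1 hu
    have hEv : M.E v v' := (Finset.mem_filter.1 (Finset.mem_filter.1 hv').1).2
    have hEu : M.E u u' := (Finset.mem_filter.1 (Finset.mem_filter.1 hu').1).2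
    have hnv : ¬ weq R v v' := (Finset.mem_filter.1 hv').2.1
    have hnu : ¬ weq R u u' := (Finset.mem_filter.1 hu').2.1
    have hl1 : ∀ k, lab k u = lab k v := fun k => (congrFun h3 k).symm
    have hl2 : ∀ k, lab k v = lab k u := fun k => congrFun h3 k
    -- it is enough to find one of the two mixed arcs
    have fin1 : M.E u v' → (v, v') = (u, u') := by
      intro h
      have h5 : v = u := M.in_uniq v' v u hEv h h1
      subst h5
      have h6 : v' = u' := M.out_uniq v v' u' hEv hEu h2
      rw [h6]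
    have fin2 : M.E v u' → (v, v') = (u, u') := by
      intro h
      have h5 : v = u := M.in_uniq u' v u h hEu h1
      subst h5
      have h6 : v' = u' := M.out_uniq v v' u' hEv hEu h2
      rw [h6]
    by_cases hr : R v v'
    · have hru : R u u' := h4.1 hr
      have hpv : wpr R v v' := ⟨hr, fun h => hnv ⟨fun _ => h, fun _ => hr⟩⟩
      have hpu : wpr R u u' := ⟨hru, fun h => hnu ⟨fun _ => h, fun _ => hru⟩⟩
      have c1 : wpr R u v' → M.E u v' := fun h =>
        key v v' u hv' h1.symm hl1 ⟨fun _ => hr, fun _ => h.1⟩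
          ⟨fun h' => absurd h' h.2, fun h' => absurd h' hpv.2⟩
      have c2 : wpr R v u' → M.E v u' := fun h =>
        key u u' v hu' h1 hl2 ⟨fun _ => hru, fun _ => h.1⟩
          ⟨fun h' => absurd h' h.2, fun h' => absurd h' hpu.2⟩
      rcases wtri R v' u' with h | h | h
      · exact fin2 (c2 (wpr_trans R htr hco _ _ _ hpv h))
      · exact fin1 (c1 (wpr_trans R htr hco _ _ _ hpu h))
      · exact fin1 (c1 (wpr_weq R htr hco _ _ _ hpu (weq_symm R htr hco _ _ h)))
    · have hru : ¬ R u u' := fun h => hr (h4.2 h)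
      have hr' : R v' v := by
        by_contra h
        exact hnv ⟨fun h' => absurd h' hr, fun h' => absurd h' h⟩
      have hru' : R u' u := by
        by_contra h
        exact hnu ⟨fun h' => absurd h' hru, fun h' => absurd h' h⟩
      have hpv : wpr R v' v := ⟨hr', hr⟩
      have hpu : wpr R u' u := ⟨hru', hru⟩
      have c1 : wpr R v' u → M.E u v' := fun h =>
        key v v' u hv' h1.symm hl1 ⟨fun h' => absurd h' h.2, fun h' => absurd h' hr⟩
          ⟨fun _ => hr', fun _ => h.1⟩
      have c2 : wpr R u' v → M.E v u' := fun h =>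
        key u u' v hu' h1 hl2 ⟨fun h' => absurd h' h.2, fun h' => absurd h' hru⟩
          ⟨fun _ => hru', fun _ => h.1⟩
      rcases wtri R v' u' with h | h | h
      · exact fin1 (c1 (wpr_trans R htr hco _ _ _ h hpu))
      · exact fin2 (c2 (wpr_trans R htr hco _ _ _ h hpv))
      · exact fin1 (c1 (weq_wpr R htr hco _ _ _ h hpu))
  have h1 := Finset.card_le_card_of_injOn (s := G)
    (t := (Finset.univ : Finset (((Fin w × Fin w) × (Fin d → Fin Q)) × Bool))) _
    (fun _ _ => Finset.mem_univ _) hinj
  refine h1.trans (le_of_eq ?_)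
  rw [Finset.card_univ, Fintype.card_prod, Fintype.card_prod, Fintype.card_prod, Fintype.card_fun]
  simp only [Fintype.card_fin, Fintype.card_bool]
  ring

end Pool.Agent.BoolWidth
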