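import Pool.Agent.Lib_MP_0cf6e1_t.AvgA

/-!
# Restriction of a monotone graph to some of its chains
-/

set_option autoImplicit false

open scoped Classical

namespace Pool.Agent.BoolWidth

theorem eIn_map {V V' : Type} (E : V → V → Prop) (e : V' ↪ V) (S : Finset V') :
    eIn (fun a b => E (e a) (e b)) S = eIn E (S.map e) := by
  unfold eIn
  rw [← Finset.card_map (e.prodMap e)]
  congr 1
  ext ⟨a, b⟩
  simp only [Finset.mem_map, Finset.mem_filter, Finset.mem_product, Function.Embedding.prodMap,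
    Function.Embedding.coeFn_mk, Prod.map, Prod.exists, Prod.mk.injEq]
  constructor
  · rintro ⟨a', b', ⟨⟨h1, h2⟩, h3⟩, rfl, rfl⟩
    exact ⟨⟨⟨a', h1, rfl⟩, ⟨b', h2, rfl⟩⟩, h3⟩
  · rintro ⟨⟨⟨a', h1, rfl⟩, ⟨b', h2, rfl⟩⟩, h3⟩
    exact ⟨a', b', ⟨⟨h1, h2⟩, h3⟩, rfl, rfl⟩

/-- restriction to the chains of `A` -/
theorem sub_mg {W : ℕ} {V : Type} [Fintype V] (M : MG W V) (w : ℕ) (A : Finset (Fin W))
    (hA : A.card = w) (g : ℕ) (hg : Gir M.E g) :
    ∃ (V' : Type) (_ : Fintype V') (M' : MG w V'), Fintype.card V' = (vA M A).card ∧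
      eIn M'.E Finset.univ = eIn M.E (vA M A) ∧ Gir M'.E g ∧
      ∀ S : Finset V', ∃ S0 : Finset V, S0.card = S.card ∧ eIn M'.E S = eIn M.E S0 := by
  obtain ⟨f⟩ : Nonempty (A ≃ Fin w) := ⟨A.equivFinOfCardEq hA⟩
  let M' : MG w {v : V // M.ch v ∈ A} :=
    { lt := fun a b => M.lt a.1 b.1
      irr := fun a => M.irr a.1
      tr := fun a b c => M.tr a.1 b.1 c.1
      ch := fun a => f ⟨M.ch a.1, a.2⟩
      chain := fun a b h hne => by
        have h1 := f.injective h
        exact M.chain a.1 b.1 (congrArg Subtype.val h1) (fun h2 => hne (Subtype.ext h2))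
      E := fun a b => M.E a.1 b.1
      elt := fun a b => M.elt a.1 b.1
      ecov := fun a b c => M.ecov a.1 b.1 c.1
      ech := fun a b h h' => M.ech a.1 b.1 h (congrArg Subtype.val (f.injective h')) }
  have hE : ∀ S : Finset {v : V // M.ch v ∈ A}, eIn M'.E S =
      eIn M.E (S.map (Function.Embedding.subtype _)) := fun S =>
    eIn_map M.E (Function.Embedding.subtype _) S
  have huniv : (Finset.univ : Finset {v : V // M.ch v ∈ A}).map (Function.Embedding.subtype _) = vA M A := by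
    ext v
    unfold vA
    simp only [Finset.mem_map, Finset.mem_univ, true_and, Function.Embedding.coe_subtype,
      Finset.mem_filter]
    constructor
    · rintro ⟨a, rfl⟩
      exact a.2
    · intro h
      exact ⟨⟨v, h⟩, rfl⟩
  refine ⟨{v : V // M.ch v ∈ A}, inferInstance, M', ?_, ?_, ?_, ?_⟩
  · rw [← huniv, Finset.card_map, Finset.card_univ]
  · rw [hE, huniv]
  · intro c l h1 h2 hc h0
    refine hg (fun i => (c i).1) l h1 h2 ⟨fun i hi => hc.1 i hi, fun i hi he => ?_⟩ (congrArg Subtype.val h0)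
    exact hc.2 i hi (Subtype.ext he)
  · intro S
    exact ⟨S.map (Function.Embedding.subtype _), Finset.card_map _, hE S⟩

end Pool.Agent.BoolWidth
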