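import Pool.Agent.Lib_MP_0cf6e1_b.ExistM
import Pool.Agent.Lib_MP_0cf6e1_t.SubMG

/-!
# Sparse monotone graphs of large girth and small losses
-/

set_option autoImplicit false

open scoped Classical

namespace Pool.Agent.BoolWidth

/-- `exist_mg` with the girth -/
theorem exist_mg_gir (w : ℕ) (hw : 3 ≤ w) :
    ∃ (V : Type) (_ : Fintype V) (M : MG w V) (s : ℕ), 1 ≤ s ∧ 0 < Fintype.card V ∧
      (4 * w - 5) * Fintype.card V ≤ 4 * eIn M.E Finset.univ ∧
      (∀ S : Finset V, S.card ≤ s → 8 * w * eIn M.E S ≤ (8 * w + 2) * S.card) ∧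
      8 * w ^ 3 * (2 * (Fintype.card V / s) + 2) ^ (w - 2) < (4 * w + 4) * Fintype.card V ∧
      Gir M.E w := by
  obtain ⟨q, h1, h2, h3⟩ := exists_q w
  have hq : 1 ≤ q := by omega
  have hw0 : 0 < w := by omega
  have hpr : 0 < pr w q := by
    unfold pr
    have : 0 < w - 1 := by omega
    positivity
  have hT : 1 ≤ pT w q := by
    unfold pT
    exact Nat.mul_pos (by omega) (by omega)
  obtain ⟨V0, _, M0, hcard0, hgir0, harc0⟩ := gbase w (pT w q) (2 * pr w q) (2 * pr w q) (by omega) hT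
  have hmin : min (2 ^ (2 * pr w q + 1) - 1) (2 * pr w q) = 2 * pr w q := by
    apply min_eq_right
    have := @Nat.lt_pow_self (2 * pr w q + 1) 2 (by norm_num)
    omega
  rw [hmin] at hgir0
  have hb := p_base w q hw hq
  obtain ⟨hV1, hV2⟩ := p_V w q hw h1 h2 h3 hb
  have hcard0' : Fintype.card V0 = w * pT w q * (pT w q * pCb w q) ^ (2 * pr w q) := hcard0
  have hC : 0 < pC w q := by unfold pC; positivity
  have hpA : 0 < pA w q := by
    unfold pA
    have : 0 < w - 1 := by omega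
    positivity
  have hn : 0 < pn w q := by
    unfold pn
    have : 0 < w - 1 := by omega
    positivity
  have hCD : pC w q ≤ pD w q := by
    unfold pD
    have : 1 ≤ 8 * w * pn w q := Nat.mul_pos (by omega) hn
    nlinarith
  have hL : 2 < pL w q := by
    unfold pL
    have : 2 ≤ (16 * w - 1) * q := by
      have : 2 ≤ 16 * w - 1 := by omega
      nlinarith
    calc 2 < 2 ^ 2 := by norm_num
      _ ≤ _ := Nat.pow_le_pow_right (by norm_num) this
  have hK : 32 ≤ pK w q := by unfold pK; omega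
  have hK2 : 32 * pr w q ≤ pK w q := by unfold pK; omega
  have hM : 1 ≤ pM w q := by unfold pM; exact Nat.one_le_two_pow
  have hV2' : Fintype.card V0 * pD w q ^ pn w q < 2 ^ (pM w q - 1) := by
    rw [hcard0']
    exact hV2
  have hy : 8 * w * (4 * w) ≤ q - 1 := by
    have : 8 * w * (4 * w) = 32 * w ^ 2 := by ring
    omega
  have hξ : (0 : ℝ) < 1 / (32 * (w : ℝ)) := by positivity
  obtain ⟨V, _, MM, hcard, hgirV, harc, hbase⟩ := tower w (pC w q) (pD w q) (pL w q) (pK w q) (8 * w) (pM w q)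
    (pr w q) (q - 1) (4 * w) (by omega) (by omega) (p_grow w q hw) hM hC hCD hL hK hK2
    (p_DL w q hw h1 h2 h3) (p_s w q hw hq) hy (p_y w hw) (1 / (32 * (w : ℝ))) hξ V0 M0 hgir0 (pn w q) hV2'
  have hcardV : Fintype.card V = pV w q := by
    rw [hcard, hcard0']
    rfl
  obtain ⟨hm1, hm2⟩ := p_m w q hw
  obtain ⟨hs1, hs2⟩ := p_sz w q hw hq hm2
  refine ⟨V, inferInstance, MM, ps w q, hs1, ?_, ?_, ?_, ?_, ?_⟩
  · rw [hcard, hcard0']
    have : 0 < pD w q := lt_of_lt_of_le hC hCD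
    have hCb : 0 < pCb w q := by unfold pCb; omega
    have : 0 < pT w q := hT
    positivity
  · rw [hcardV]
    refine (p_arcs w q hw hq).trans ?_
    exact Nat.mul_le_mul_left 4 (le_trans (Nat.mul_le_mul_right _ harc0) harc)
  · intro S hS
    have hm : ((pm w q : ℕ) : ℝ) + (8 * ((w - 1 : ℕ) : ℝ) * ((8 * w : ℕ) : ℝ) ^ 2 * (2 + (pK w q : ℝ)) ^ 2 /
        (1 / (32 * (w : ℝ)))) * ((w - 1 : ℕ) : ℝ) ≤ (pn w q : ℝ) * (1 - 1 / (32 * (w : ℝ))) := by
      have hA : (8 * ((w - 1 : ℕ) : ℝ) * ((8 * w : ℕ) : ℝ) ^ 2 * (2 + (pK w q : ℝ)) ^ 2 /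
        (1 / (32 * (w : ℝ)))) = (pA w q : ℝ) := by
        unfold pA
        push_cast
        field_simp
      rw [hA]
      have hm1' : 32 * (w : ℝ) * pm w q + 32 * w * (pA w q * ((w - 1 : ℕ) : ℝ)) + pn w q ≤ 32 * w * pn w q := by
        exact_mod_cast hm1
      have hw' : (0 : ℝ) < 32 * (w : ℝ) := by positivity
      have e1 : (pn w q : ℝ) * (1 - 1 / (32 * (w : ℝ))) = (32 * w * pn w q - pn w q) / (32 * (w : ℝ)) := by
        field_simp
      rw [e1, le_div_iff₀ hw']
      nlinarith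
    have hcast : (S.card : ℝ) < ((pL w q : ℝ) / 2) ^ pm w q := by
      have e1 : (S.card : ℝ) ≤ (ps w q : ℝ) := by exact_mod_cast hS
      have e2 : (ps w q : ℝ) * 2 ^ pm w q < (pL w q : ℝ) ^ pm w q := by exact_mod_cast hs2
      rw [div_pow, lt_div_iff₀ (by positivity)]
      exact lt_of_le_of_lt (mul_le_mul_of_nonneg_right e1 (by positivity)) e2
    exact sparse MM.E M0.E (w - 1) M0.deg (8 * w) (pL w q) (pn w q) (pm w q) (by omega) hL (1 / (32 * (w : ℝ)))
      _ (by positivity) hm hbase S hcast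
  · rw [hcardV]
    exact p_final w q hw h1 hV1
  · refine hgirV.mono (fun _ _ h => h) ?_
    unfold pr
    have e1 : 1 ≤ w - 1 := by omega
    have e2 : 1 ≤ 32 * w * q := Nat.mul_pos (by omega) hq
    have e3 : w ≤ 2 * (w - 1) * (8 * w) := by
      calc w ≤ 1 * (8 * w) := by omega
        _ ≤ 2 * (w - 1) * (8 * w) := Nat.mul_le_mul_right _ (by omega)
    calc w ≤ 2 * (w - 1) * (8 * w) * 1 := by omega
      _ ≤ 2 * (w - 1) * (8 * w) * (32 * w * q) := Nat.mul_le_mul_left _ e2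
      _ ≤ 2 * (2 * (w - 1) * (8 * w) * (32 * w * q)) := by omega

theorem eIn_le_deg {V : Type} [Fintype V] (E : V → V → Prop) (d : ℕ) (hd : DegLE E d) :
    eIn E Finset.univ ≤ d * Fintype.card V := by
  unfold eIn
  have h1 : ((Finset.univ ×ˢ Finset.univ : Finset (V × V)).filter fun p => E p.1 p.2).card =
      ∑ u : V, ((Finset.univ : Finset V).filter (fun v => E u v)).card := by
    rw [Finset.card_eq_sum_card_fiberwise (f := fun p : V × V => p.1) (t := Finset.univ)
      (fun _ _ => Finset.mem_coe.2 (Finset.mem_univ _))]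
    apply Finset.sum_congr rfl
    intro u _
    refine Finset.card_bij (fun p _ => p.2) ?_ ?_ ?_
    · rintro ⟨a, b⟩ hp
      obtain ⟨h1, h2⟩ := Finset.mem_filter.1 hp
      have h3 := (Finset.mem_filter.1 h1).2
      simp only at h2 h3
      rw [Finset.mem_filter]
      exact ⟨Finset.mem_univ _, h2 ▸ h3⟩
    · rintro ⟨a, b⟩ hp ⟨a', b'⟩ hp' h
      have h2 := (Finset.mem_filter.1 hp).2
      have h2' := (Finset.mem_filter.1 hp').2
      exact Prod.ext (h2.trans h2'.symm) h
    · intro b hb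
      refine ⟨(u, b), ?_, rfl⟩
      rw [Finset.mem_filter, Finset.mem_filter]
      exact ⟨⟨Finset.mem_product.2 ⟨Finset.mem_univ _, Finset.mem_univ _⟩, (Finset.mem_filter.1 hb).2⟩, rfl⟩
  rw [h1]
  refine (Finset.sum_le_card_nsmul _ _ d (fun u _ => hd.1 u _ (fun v hv => (Finset.mem_filter.1 hv).2))).trans
    (le_of_eq ?_)
  rw [Finset.card_univ, smul_eq_mul, mul_comm]

/-- sparse graphs on `w` chains with arbitrarily small losses (`W` large) -/
theorem exist_sub (w W : ℕ) (hw : 2 ≤ w) (hW3 : 3 ≤ W) (hW : w + 1 ≤ W) :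
    ∃ (V : Type) (_ : Fintype V) (M : MG w V) (s : ℕ), 1 ≤ s ∧ 0 < Fintype.card V ∧
      2 * (W - 1) * ((w - 1) * Fintype.card V) ≤
        2 * (W - 1) * eIn M.E Finset.univ + (w - 1) * Fintype.card V ∧
      (∀ S : Finset V, S.card ≤ s → 8 * W * eIn M.E S ≤ (8 * W + 2) * S.card) ∧
      w * W * (2 * (Fintype.card V / s) + 2) ^ (w - 1) ≤ 2 * Fintype.card V ∧
      Gir M.E W := by
  obtain ⟨V, fV, M, s, hs, hN, harc, hsp, hfin, hgir⟩ := exist_mg_gir W hW3
  obtain ⟨A, hA, hav⟩ := avg_chains M w hw (by omega) harc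
  obtain ⟨V', fV', M', hcard, he, hg', hsub⟩ := sub_mg M w A hA W hgir
  obtain ⟨v, rfl⟩ : ∃ v, w = v + 1 := ⟨w - 1, by omega⟩
  obtain ⟨U, rfl⟩ : ∃ U, W = U + 1 := ⟨W - 1, by omega⟩
  set N := Fintype.card V with hNdef
  set N' := Fintype.card V' with hN'def
  set e' := eIn M'.E Finset.univ with he'def
  rw [← hcard, ← he] at hav
  have hNN : N' ≤ N := by
    rw [hcard]
    exact Finset.card_le_univ _
  push_cast at hav
  simp only [add_sub_cancel_right] at hav
  have hNpos : (0 : ℤ) < N := by exact_mod_cast hN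
  have hv : (1 : ℤ) ≤ v := by
    have : 1 ≤ v := by omega
    exact_mod_cast this
  have hU : (2 : ℤ) ≤ U := by
    have : 2 ≤ U := by omega
    exact_mod_cast this
  have hN'0 : (0 : ℤ) ≤ N' := by positivity
  have hdeg : e' ≤ v * N' := by
    have h1 := eIn_le_deg M'.E v M'.deg
    exact h1
  have hdeg' : (e' : ℤ) ≤ v * N' := by exact_mod_cast hdeg
  set Q := 2 * (N / s) + 2 with hQ
  have hpos : 0 < (v : ℤ) * N' - 2 * U * (v * N' - e') := by
    by_contra hcon
    push Not at hcon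
    have h1 : (2 : ℤ) * (U + 1) * (v * N' - 2 * U * (v * N' - e')) ≤ 0 :=
      mul_nonpos_of_nonneg_of_nonpos (by linarith) hcon
    have h2 : (0 : ℤ) < (v + 1) * v * N := by positivity
    linarith
  have hN'1 : 0 < N' := by
    rcases Nat.eq_zero_or_pos N' with h | h
    · rw [h] at hpos hdeg'
      push_cast at hpos hdeg'
      nlinarith
    · exact h
  have hNN' : (v + 1) * N ≤ 2 * (U + 1) * N' := by
    have h1 : (2 : ℤ) * (U + 1) * (v * N' - 2 * U * (v * N' - e')) ≤ 2 * (U + 1) * (v * N') := by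
      apply mul_le_mul_of_nonneg_left _ (by linarith)
      have : (0 : ℤ) ≤ 2 * U * (v * N' - e') := mul_nonneg (by linarith) (by linarith)
      linarith
    have h2 : (v : ℤ) * ((v + 1) * N) ≤ v * (2 * (U + 1) * N') := by
      calc (v : ℤ) * ((v + 1) * N) = (v + 1) * v * N := by ring
        _ ≤ 2 * (U + 1) * (v * N') := hav.trans h1
        _ = _ := by ring
    have h3 : ((v : ℤ) + 1) * N ≤ 2 * (U + 1) * N' := le_of_mul_le_mul_left h2 (by linarith)
    exact_mod_cast h3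
  refine ⟨V', fV', M', s, hs, hN'1, ?_, ?_, ?_, hg'⟩
  · simp only [Nat.add_sub_cancel]
    zify
    linarith
  · intro S hS
    obtain ⟨S0, h1, h2⟩ := hsub S
    rw [h2, ← h1]
    exact hsp S0 (by omega)
  · simp only [Nat.add_sub_cancel]
    have h1 : N' / s ≤ N / s := Nat.div_le_div_right hNN
    have h2 : (2 * (N' / s) + 2) ^ v ≤ Q ^ (U + 1 - 2) :=
      (Nat.pow_le_pow_left (by omega) v).trans (Nat.pow_le_pow_right (by omega) (by omega))
    set P := Q ^ (U + 1 - 2) with hP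
    have h3 : (U + 1) * (U + 1) * P ≤ N := by
      have h4 : 8 * (U + 1) * ((U + 1) * (U + 1) * P) < 8 * (U + 1) * N := by
        calc 8 * (U + 1) * ((U + 1) * (U + 1) * P) = 8 * (U + 1) ^ 3 * P := by ring
          _ < (4 * (U + 1) + 4) * N := hfin
          _ ≤ 8 * (U + 1) * N := Nat.mul_le_mul_right _ (by omega)
      exact (Nat.lt_of_mul_lt_mul_left h4).le
    have h5 : (U + 1) * ((v + 1) * (U + 1) * P) ≤ (U + 1) * (2 * N') := by
      calc (U + 1) * ((v + 1) * (U + 1) * P) = (v + 1) * ((U + 1) * (U + 1) * P) := by ring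
        _ ≤ (v + 1) * N := Nat.mul_le_mul_left _ h3
        _ ≤ 2 * (U + 1) * N' := hNN'
        _ = _ := by ring
    have h6 := Nat.le_of_mul_le_mul_left h5 (by omega)
    exact (Nat.mul_le_mul_left _ h2).trans h6

end Pool.Agent.BoolWidth
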