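import Mathlib

/-!
# Turning points of a linear order along a chain of a poset. Definitions
-/

set_option autoImplicit false

namespace Pool.Agent.BoolTurn

/-- The strict linear orders `L 0, …, L (d-1)` on `X` and the Boolean function `τ` of `d` bits form
a Boolean realizer of the poset `X`: for all distinct `x` and `y`, `x < y` in `X` if and only if `τ`
is true at the vector whose `i`-th entry says whether `x` is before `y` in `L i`. -/
def IsBoolRealizer (X : Type) [PartialOrder X] {d : ℕ} (L : Fin d → X → X → Prop)
    (τ : (Fin d → Prop) → Prop) : Prop :=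
  (∀ i, IsStrictTotalOrder X (L i)) ∧ ∀ x y : X, x ≠ y → (x < y ↔ τ (fun i => L i x y))

/-- `y` is a turning point of the linear order `R` along the chain `S` of the poset `X`: `y` is in
`S`, it has a predecessor `x` and a successor `z` in `S`, and `R` changes its direction at `y`
(either `x` is before `y` and `z` is before `y`, or `y` is before `x` and `y` is before `z`). -/
def IsTurn {X : Type} [PartialOrder X] (R : X → X → Prop) (S : Finset X) (y : X) : Prop :=
  y ∈ S ∧ ∃ x ∈ S, ∃ z ∈ S, x < y ∧ y < z ∧ (∀ u ∈ S, ¬ (x < u ∧ u < y)) ∧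
    (∀ u ∈ S, ¬ (y < u ∧ u < z)) ∧ ((R x y ∧ R z y) ∨ (R y x ∧ R y z))

open scoped Classical in
/-- the number of turning points of `R` along the chain `S` -/
noncomputable def turns {X : Type} [PartialOrder X] (R : X → X → Prop) (S : Finset X) : ℕ :=
  (S.filter (fun y => IsTurn R S y)).card

/-- `R` is increasing on `S` or decreasing on `S` -/
def Mono {X : Type} [PartialOrder X] (R : X → X → Prop) (S : Finset X) : Prop :=
  (∀ x ∈ S, ∀ y ∈ S, x < y → R x y) ∨ ∀ x ∈ S, ∀ y ∈ S, x < y → R y x

end Pool.Agent.BoolTurn
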