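import Pool.Agent.Lib_MP_0cf6e1_b.Deg

/-!
# Averaging over the sets of `w` chains
-/

set_option autoImplicit false

open scoped Classical

namespace Pool.Agent.BoolWidth

/-- the vertices on the chains of `A` -/
noncomputable def vA {W : ℕ} {V : Type} [Fintype V] (M : MG W V) (A : Finset (Fin W)) : Finset V :=
  Finset.univ.filter (fun v => M.ch v ∈ A)

/-- every vertex on `A` is counted `|A| - 1` times -/
theorem sum_vA {W : ℕ} {V : Type} [Fintype V] (M : MG W V) (A : Finset (Fin W)) (hA : 1 ≤ A.card) :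
    ∑ i ∈ A, ((vA M (A.erase i)).card : ℤ) = ((A.card : ℤ) - 1) * (vA M A).card := by
  have h1 : ∀ i ∈ A, ((vA M (A.erase i)).card : ℤ) =
      ∑ v ∈ vA M A, (if M.ch v ≠ i then (1 : ℤ) else 0) := by
    intro i hi
    rw [← Finset.sum_filter, Finset.sum_const, nsmul_eq_mul, mul_one]
    congr 2
    ext v
    unfold vA
    simp only [Finset.mem_filter, Finset.mem_univ, true_and, Finset.mem_erase]
    tauto
  rw [Finset.sum_congr rfl h1, Finset.sum_comm]
  have h2 : ∀ v ∈ vA M A, ∑ i ∈ A, (if M.ch v ≠ i then (1 : ℤ) else 0) = (A.card : ℤ) - 1 := by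
    intro v hv
    have hv' : M.ch v ∈ A := (Finset.mem_filter.1 hv).2
    rw [← Finset.sum_filter, Finset.sum_const, nsmul_eq_mul, mul_one]
    have h3 : A.filter (fun i => M.ch v ≠ i) = A.erase (M.ch v) := by
      ext i
      simp only [Finset.mem_filter, Finset.mem_erase, ne_eq]
      constructor
      · rintro ⟨h1, h2⟩
        exact ⟨fun h => h2 h.symm, h1⟩
      · rintro ⟨h1, h2⟩
        exact ⟨h2, fun h => h1 h.symm⟩
    rw [h3, Finset.card_erase_of_mem hv']
    push_cast [Nat.cast_sub hA]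
    ring
  rw [Finset.sum_congr rfl h2, Finset.sum_const, nsmul_eq_mul]
  ring

/-- every arc on `A` is counted `|A| - 2` times -/
theorem sum_eA {W : ℕ} {V : Type} [Fintype V] (M : MG W V) (A : Finset (Fin W)) (hA : 2 ≤ A.card) :
    ∑ i ∈ A, (eIn M.E (vA M (A.erase i)) : ℤ) = ((A.card : ℤ) - 2) * eIn M.E (vA M A) := by
  set F := ((vA M A ×ˢ vA M A).filter fun p => M.E p.1 p.2) with hF
  have h1 : ∀ i ∈ A, (eIn M.E (vA M (A.erase i)) : ℤ) =
      ∑ p ∈ F, (if M.ch p.1 ≠ i ∧ M.ch p.2 ≠ i then (1 : ℤ) else 0) := by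
    intro i hi
    rw [← Finset.sum_filter, Finset.sum_const, nsmul_eq_mul, mul_one]
    unfold eIn
    congr 2
    ext p
    rw [hF]
    unfold vA
    simp only [Finset.mem_filter, Finset.mem_product, Finset.mem_univ, true_and, Finset.mem_erase]
    tauto
  rw [Finset.sum_congr rfl h1, Finset.sum_comm]
  have h2 : ∀ p ∈ F, ∑ i ∈ A, (if M.ch p.1 ≠ i ∧ M.ch p.2 ≠ i then (1 : ℤ) else 0) = (A.card : ℤ) - 2 := by
    intro p hp
    obtain ⟨h3, hE⟩ := Finset.mem_filter.1 hp
    obtain ⟨h4, h5⟩ := Finset.mem_product.1 h3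
    have h6 : M.ch p.1 ∈ A := (Finset.mem_filter.1 h4).2
    have h7 : M.ch p.2 ∈ A := (Finset.mem_filter.1 h5).2
    have hne : M.ch p.1 ≠ M.ch p.2 := M.ech _ _ hE
    rw [← Finset.sum_filter, Finset.sum_const, nsmul_eq_mul, mul_one]
    have h8 : A.filter (fun i => M.ch p.1 ≠ i ∧ M.ch p.2 ≠ i) = (A.erase (M.ch p.1)).erase (M.ch p.2) := by
      ext i
      simp only [Finset.mem_filter, Finset.mem_erase, ne_eq]
      constructor
      · rintro ⟨h1, h2, h3⟩
        exact ⟨fun h => h3 h.symm, fun h => h2 h.symm, h1⟩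
      · rintro ⟨h1, h2, h3⟩
        exact ⟨h3, fun h => h2 h.symm, fun h => h1 h.symm⟩
    rw [h8, Finset.card_erase_of_mem (Finset.mem_erase.2 ⟨hne.symm, h7⟩), Finset.card_erase_of_mem h6]
    have : A.card - 1 - 1 = A.card - 2 := by omega
    rw [this]
    push_cast [Nat.cast_sub hA]
    ring
  rw [Finset.sum_congr rfl h2, Finset.sum_const, nsmul_eq_mul]
  have h9 : F.card = eIn M.E (vA M A) := rfl
  rw [h9]
  ring

/-- the functional -/
noncomputable def gA {W : ℕ} {V : Type} [Fintype V] (M : MG W V) (A : Finset (Fin W)) : ℤ :=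
  ((A.card : ℤ) - 1) * (vA M A).card -
    2 * ((W : ℤ) - 1) * (((A.card : ℤ) - 1) * (vA M A).card - eIn M.E (vA M A))

theorem sum_gA {W : ℕ} {V : Type} [Fintype V] (M : MG W V) (A : Finset (Fin W)) (hA : 2 ≤ A.card) :
    ∑ i ∈ A, gA M (A.erase i) = ((A.card : ℤ) - 2) * gA M A := by
  have h1 : ∀ i ∈ A, gA M (A.erase i) = (((A.card : ℤ) - 2) * (1 - 2 * ((W : ℤ) - 1))) * (vA M (A.erase i)).card +
      2 * ((W : ℤ) - 1) * eIn M.E (vA M (A.erase i)) := by
    intro i hi
    unfold gA
    rw [Finset.card_erase_of_mem hi]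
    push_cast [Nat.cast_sub (show 1 ≤ A.card by omega)]
    ring
  rw [Finset.sum_congr rfl h1, Finset.sum_add_distrib, ← Finset.mul_sum, ← Finset.mul_sum,
    sum_vA M A (by omega), sum_eA M A hA]
  unfold gA
  ring

/-- averaging over the sets of `w` chains (delete one chain at a time) -/
theorem avg_chains {W : ℕ} {V : Type} [Fintype V] (M : MG W V) (w : ℕ) (hw : 2 ≤ w) (hW : w ≤ W)
    (h : (4 * W - 5) * Fintype.card V ≤ 4 * eIn M.E Finset.univ) :
    ∃ A : Finset (Fin W), A.card = w ∧
      (w : ℤ) * (w - 1) * Fintype.card V ≤ 2 * W * ((w - 1) * (vA M A).card -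
        2 * (W - 1) * ((w - 1) * (vA M A).card - eIn M.E (vA M A))) := by
  have key : ∀ m : ℕ, m + 2 ≤ W → ∃ A : Finset (Fin W), A.card = W - m ∧
      ((W - m : ℕ) : ℤ) * ((W - m : ℕ) - 1) * Fintype.card V ≤ 2 * W * gA M A := by
    intro m
    induction m with
    | zero =>
      intro h0
      refine ⟨Finset.univ, by simp, ?_⟩
      have hv : vA M Finset.univ = Finset.univ := by
        ext v
        simp [vA]
      unfold gA
      rw [hv, Finset.card_univ, Finset.card_univ, Fintype.card_fin, Nat.sub_zero]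
      have h1 : (4 * (W : ℤ) - 5) * Fintype.card V ≤ 4 * eIn M.E Finset.univ := by
        have h2 : (((4 * W - 5) * Fintype.card V : ℕ) : ℤ) ≤ ((4 * eIn M.E Finset.univ : ℕ) : ℤ) := by
          exact_mod_cast h
        rcases Nat.lt_or_ge W 2 with h3 | h3
        · omega
        · push_cast [Nat.cast_sub (show 5 ≤ 4 * W by omega)] at h2
          exact h2
      have hW2 : (2 : ℤ) ≤ W := by
        have : 2 ≤ W := by omega
        exact_mod_cast this
      nlinarith [mul_le_mul_of_nonneg_left h1 (show (0 : ℤ) ≤ W * (W - 1) by nlinarith)]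
    | succ m ih =>
      intro h0
      obtain ⟨A, hA, hg⟩ := ih (by omega)
      have hA3 : 3 ≤ A.card := by omega
      have hsum := sum_gA M A (by omega)
      -- some element is at least the average
      obtain ⟨i, hi, hmax⟩ : ∃ i ∈ A, ((A.card : ℤ) - 2) * gA M A ≤ A.card * gA M (A.erase i) := by
        by_contra hcon
        push Not at hcon
        have h1 : ∑ i ∈ A, (A.card : ℤ) * gA M (A.erase i) < ∑ i ∈ A, ((A.card : ℤ) - 2) * gA M A := by
          apply Finset.sum_lt_sum_of_nonempty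
          · exact Finset.card_pos.1 (by omega)
          · intro i hi
            exact hcon i hi
        rw [← Finset.mul_sum, hsum, Finset.sum_const, nsmul_eq_mul] at h1
        exact lt_irrefl _ h1
      refine ⟨A.erase i, ?_, ?_⟩
      · rw [Finset.card_erase_of_mem hi]
        omega
      · obtain ⟨j, hj⟩ : ∃ j, W - m = j + 1 := ⟨W - m - 1, by omega⟩
        have hj2 : W - (m + 1) = j := by omega
        rw [hj] at hg hA
        rw [hj2]
        rw [hA] at hmax
        push_cast at hmax hg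
        have hj2' : (2 : ℤ) ≤ j := by
          have : 2 ≤ j := by omega
          exact_mod_cast this
        have hW0 : (0 : ℤ) ≤ W := by positivity
        -- `(j + 1) j N ≤ 2 W g(A)` and `(j - 1) g(A) ≤ (j + 1) g(A - i)`
        have e1 : ((j : ℤ) - 1) * (2 * W * gA M A) ≤ (j + 1) * (2 * W * gA M (A.erase i)) := by
          have := mul_le_mul_of_nonneg_left hmax (show (0 : ℤ) ≤ 2 * W by linarith)
          nlinarith
        have e2 : ((j : ℤ) - 1) * ((j + 1) * j * Fintype.card V) ≤ (j - 1) * (2 * W * gA M A) := by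
          apply mul_le_mul_of_nonneg_left _ (by linarith)
          refine le_trans (le_of_eq ?_) hg
          ring
        have e3 : ((j : ℤ) + 1) * (j * (j - 1) * Fintype.card V) ≤ (j + 1) * (2 * W * gA M (A.erase i)) := by
          refine le_trans (le_of_eq ?_) (e2.trans e1)
          ring
        exact le_of_mul_le_mul_left e3 (by linarith)
  obtain ⟨A, hA, hg⟩ := key (W - w) (by omega)
  have hww : W - (W - w) = w := by omega
  rw [hww] at hA hg
  refine ⟨A, hA, ?_⟩
  unfold gA at hg
  rw [hA] at hg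
  exact hg

end Pool.Agent.BoolWidth
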