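import Pool.Agent.Lib_MP_0cf6e1_t.ClsA
import Pool.Agent.Lib_MP_0cf6e1_t.CntA

/-!
# The box argument with one order which is monotone on a large chain
-/

set_option autoImplicit false

open scoped Classical

namespace Pool.Agent.BoolWidth

/-- many levels contain many elements of `S` -/
theorem dense_levels {V : Type} [Fintype V] (n k nR : ℕ) (hN : 0 < Fintype.card V)
    (hn : 4 * k * nR ≤ n) (hk : 1 ≤ k) (S : Finset (V × Fin n))
    (hcard : Fintype.card V * n ≤ 2 * k * S.card) :
    nR ≤ (Finset.univ.filter (fun z : Fin n => Fintype.card V ≤ 4 * k *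
      (Finset.univ.filter (fun u : V => (u, z) ∈ S)).card)).card := by
  set N := Fintype.card V with hNdef
  set Z := Finset.univ.filter (fun z : Fin n => N ≤ 4 * k *
      (Finset.univ.filter (fun u : V => (u, z) ∈ S)).card) with hZ
  have hsum : S.card = ∑ z : Fin n, (Finset.univ.filter (fun u : V => (u, z) ∈ S)).card := by
    rw [Finset.card_eq_sum_card_fiberwise (f := fun p : V × Fin n => p.2) (t := Finset.univ)
      (fun _ _ => Finset.mem_coe.2 (Finset.mem_univ _))]
    apply Finset.sum_congr rfl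
    intro z _
    refine Finset.card_bij (fun p _ => p.1) ?_ ?_ ?_
    · rintro ⟨a, b⟩ hp
      obtain ⟨h1, h2⟩ := Finset.mem_filter.1 hp
      simp only at h2
      rw [Finset.mem_filter]
      exact ⟨Finset.mem_univ _, h2 ▸ h1⟩
    · rintro ⟨a, b⟩ hp ⟨a', b'⟩ hp' h
      have h2 := (Finset.mem_filter.1 hp).2
      have h2' := (Finset.mem_filter.1 hp').2
      exact Prod.ext h (h2.trans h2'.symm)
    · intro u hu
      exact ⟨(u, z), Finset.mem_filter.2 ⟨(Finset.mem_filter.1 hu).2, rfl⟩, rfl⟩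
  have hbound : ∀ z : Fin n, 4 * k * (Finset.univ.filter (fun u : V => (u, z) ∈ S)).card ≤
      (if z ∈ Z then 4 * k * N else 0) + N := by
    intro z
    by_cases hz : z ∈ Z
    · rw [if_pos hz]
      have h1 : (Finset.univ.filter (fun u : V => (u, z) ∈ S)).card ≤ N := Finset.card_le_univ _
      have h2 := Nat.mul_le_mul_left (4 * k) h1
      omega
    · rw [if_neg hz]
      have h1 : ¬ (N ≤ 4 * k * (Finset.univ.filter (fun u : V => (u, z) ∈ S)).card) := fun h =>
        hz (Finset.mem_filter.2 ⟨Finset.mem_univ _, h⟩)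
      omega
  have h1 : 4 * k * S.card ≤ Z.card * (4 * k * N) + n * N := by
    rw [hsum, Finset.mul_sum]
    refine (Finset.sum_le_sum (fun z _ => hbound z)).trans (le_of_eq ?_)
    rw [Finset.sum_add_distrib, ← Finset.sum_filter, Finset.sum_const, Finset.sum_const,
      Finset.card_univ, Fintype.card_fin, smul_eq_mul, smul_eq_mul, Finset.filter_mem_eq_inter,
      Finset.univ_inter]
  have h2 : n * N ≤ Z.card * (4 * k) * N := by
    have h3 : 2 * (N * n) ≤ 4 * k * S.card := by
      calc 2 * (N * n) ≤ 2 * (2 * k * S.card) := Nat.mul_le_mul_left _ hcard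
        _ = _ := by ring
    nlinarith
  have h3 : n ≤ Z.card * (4 * k) := Nat.le_of_mul_le_mul_right h2 hN
  have h4 : nR * (4 * k) ≤ Z.card * (4 * k) := by
    calc nR * (4 * k) = 4 * k * nR := by ring
      _ ≤ _ := hn.trans h3
  exact Nat.le_of_mul_le_mul_right h4 (by omega)

/-- the main inequality, with one order which is monotone on a large chain `S` -/
theorem box2 {w : ℕ} {V : Type} [Fintype V] (M : MG w V) (s g b d k : ℕ) (hs : 1 ≤ s) (hk : 1 ≤ k)
    (hN : 0 < Fintype.card V) (hg : Gir M.E g)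
    (hsp : ∀ S : Finset V, S.card ≤ s → b * eIn M.E S ≤ (b + 2) * S.card) :
    ∃ n0 : ℕ, 0 < n0 ∧ ∀ n : ℕ, n0 ≤ n →
      ∀ (L : Fin d → V × Fin n → V × Fin n → Prop) (τ : (Fin d → Prop) → Prop),
      (∀ i, IsStrictTotalOrder (V × Fin n) (L i)) →
      (∀ x y, x ≠ y → (liftLt M.lt M.E (fun _ _ => 0) n x y ↔ τ (fun i => L i x y))) →
      ∀ (j : Fin d) (S : Finset (V × Fin n)),
      (∀ x ∈ S, ∀ y ∈ S, x ≠ y → liftLt M.lt M.E (fun _ _ => 0) n x y ∨
        liftLt M.lt M.E (fun _ _ => 0) n y x) →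
      ((∀ x ∈ S, ∀ y ∈ S, liftLt M.lt M.E (fun _ _ => 0) n x y → L j x y) ∨
        (∀ x ∈ S, ∀ y ∈ S, liftLt M.lt M.E (fun _ _ => 0) n x y → L j y x)) →
      Fintype.card V * n ≤ 2 * k * S.card →
      ∃ y z : ℕ, Fintype.card V ≤ 4 * k * y ∧ g * z ≤ Fintype.card V ∧
        b * eIn M.E Finset.univ + b * y ≤ d * ((b + 2) * Fintype.card V) + b * z +
          3 * (b * (w ^ 2 * (2 * (Fintype.card V / s) + 2) ^ d)) := by
  obtain ⟨nR, hnR⟩ := ram_aux ((Fin d → V → V → Prop) × (V → Prop))
    (Fintype.card ((Fin d → V → V → Prop) × (V → Prop)))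
  refine ⟨4 * k * (nR + 1), by positivity, ?_⟩
  intro n hn L τ hL hτ j S hS hmono hcard
  have hZ := dense_levels n k (nR + 1) hN hn hk S hcard
  set Z := Finset.univ.filter (fun z : Fin n => Fintype.card V ≤ 4 * k *
      (Finset.univ.filter (fun u : V => (u, z) ∈ S)).card) with hZdef
  obtain ⟨z1, hz1, z2, -, z3, -, h12, h23, e1, e2⟩ := hnR (Fin n)
    (fun a b => ((fun k u v => L k (u, a) (v, b)), fun u => (u, a) ∈ S)) Z Finset.univ (by omega)
    (by rw [Finset.card_univ]) (fun _ _ _ _ _ => Finset.mem_univ _)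
  simp only [Prod.mk.injEq] at e1 e2
  have hR12 : ∀ k u v, L k (u, z1) (v, z2) ↔ L k (u, z2) (v, z3) := by
    intro k u v
    have := congrFun (congrFun (congrFun e1.1 k) u) v
    exact iff_of_eq this
  have hR13 : ∀ k u v, L k (u, z1) (v, z2) ↔ L k (u, z1) (v, z3) := by
    intro k u v
    have := congrFun (congrFun (congrFun e2.1 k) u) v
    exact iff_of_eq this
  have hS12 : ∀ u, (u, z1) ∈ S ↔ (u, z2) ∈ S := by
    intro u
    exact iff_of_eq (congrFun e1.2 u)
  have htr : ∀ k, ∀ u v t, L k (u, z1) (v, z2) → L k (v, z1) (t, z2) → L k (u, z1) (t, z2) := by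
    intro k u v t h1 h2
    have := hL k
    rw [hR12] at h2
    rw [hR13]
    exact trans_of (L k) h1 h2
  have hz12 : z1 ≠ z2 := ne_of_lt h12
  have hz23 : z2 ≠ z3 := ne_of_lt h23
  have hco : ∀ k, ∀ u v t, ¬ L k (u, z1) (v, z2) → ¬ L k (v, z1) (t, z2) → ¬ L k (u, z1) (t, z2) := by
    intro k u v t h1 h2 h3
    have := hL k
    rw [hR12] at h2
    rw [hR13] at h3
    have h4 : L k (v, z2) (u, z1) := by
      rcases trichotomous_of (L k) (v, z2) (u, z1) with h | h | h
      · exact h
      · exact absurd (congrArg Prod.snd h) hz12.symm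
      · exact absurd h h1
    have h5 : L k (t, z3) (v, z2) := by
      rcases trichotomous_of (L k) (t, z3) (v, z2) with h | h | h
      · exact h
      · exact absurd (congrArg Prod.snd h) hz23.symm
      · exact absurd h h2
    exact asymm_of (L k) (trans_of (L k) h5 h4) h3
  -- the elements of `Y` are in distinct blocks of the order `j`
  set Y := Finset.univ.filter (fun u : V => (u, z1) ∈ S) with hYdef
  have hYcard : Fintype.card V ≤ 4 * k * Y.card := (Finset.mem_filter.1 hz1).2
  have hYaux : ∀ u ∈ Y, ∀ v ∈ Y, M.lt u v → ¬ M.E u v →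
      ¬ weq (fun u v => L j (u, z1) (v, z2)) u v := by
    intro u hu v hv h1 h2 hw
    have hu1 : (u, z1) ∈ S := (Finset.mem_filter.1 hu).2
    have hv1 : (v, z1) ∈ S := (Finset.mem_filter.1 hv).2
    have hu2 : (u, z2) ∈ S := (hS12 u).1 hu1
    have hv2 : (v, z2) ∈ S := (hS12 v).1 hv1
    have hall : ∀ a b : Fin n, liftLt M.lt M.E (fun _ _ => 0) n (u, a) (v, b) :=
      fun a b => Or.inr (Or.inl ⟨h1, h2⟩)
    have := hL j
    have hw' : L j (u, z1) (v, z2) ↔ L j (v, z1) (u, z2) := hw
    rcases hmono with hm | hm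
    · have h3 := hm _ hu1 _ hv2 (hall _ _)
      have h4 := hm _ hu2 _ hv1 (hall _ _)
      exact asymm_of (L j) h4 (hw'.1 h3)
    · have h3 := hm _ hu1 _ hv2 (hall _ _)
      have h4 := hm _ hu2 _ hv1 (hall _ _)
      exact asymm_of (L j) h3 (hw'.2 h4)
  have hY : ∀ u ∈ Y, ∀ v ∈ Y, u ≠ v → ¬ weq (fun u v => L j (u, z1) (v, z2)) u v := by
    intro u hu v hv hne hw
    have hv1 : (v, z1) ∈ S := (Finset.mem_filter.1 hv).2
    have hu2 : (u, z2) ∈ S := (hS12 u).1 (Finset.mem_filter.1 hu).2
    rcases hS _ hu2 _ hv1 (fun h => hne (congrArg Prod.fst h)) with h | h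
    · rcases h with h | h | h
      · exact hne h.1
      · exact hYaux u hu v hv h.1 h.2 hw
      · have h3 := h.2
        simp only [add_zero] at h3
        exact absurd h12 (not_lt.2 h3)
    · have hE : ∀ h' : M.E v u, M.ch v = M.ch u → False := fun h' h'' => M.ech _ _ h' h''
      rcases h with h | h | h
      · exact hne h.1.symm
      · exact hYaux v hv u hu h.1 h.2 hw.symm
      · -- `E v u`: compare `(v, z2)` and `(u, z1)`
        have hv2 : (v, z2) ∈ S := (hS12 v).1 hv1
        have hu1 : (u, z1) ∈ S := (Finset.mem_filter.1 hu).2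
        rcases hS _ hv2 _ hu1 (fun h' => hne (congrArg Prod.fst h').symm) with h' | h'
        · rcases h' with h' | h' | h'
          · exact hne h'.1.symm
          · exact h'.2 h.1
          · have h3 := h'.2
            simp only [add_zero] at h3
            exact absurd h12 (not_lt.2 h3)
        · rcases h' with h' | h' | h'
          · exact hne h'.1
          · exact M.irr _ (M.tr _ _ _ h'.1 (M.elt _ _ h.1))
          · exact M.irr _ (M.tr _ _ _ (M.elt _ _ h'.1) (M.elt _ _ h.1))
  choose lab hsize hlab hblk using fun k => labels2 (fun u v => L k (u, z1) (v, z2)) (htr k) (hco k) s hs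
  have hgood := good_count M d n _ L τ hL hτ z1 z2 h12 lab hlab
  have hbad := fun k => bad_count2 M s b _ (lab k) (hsize k) hsp
  have hdir := dir_count M d n _ L τ hL hτ z1 z2 h12 lab j (fun k _ => hlab k) (htr j) (hco j)
  obtain ⟨z, hz, hsmall⟩ := small_count M s g b hg hsp (fun u v => L j (u, z1) (v, z2)) (htr j) (hco j) Y hY
  refine ⟨Y.card, z, hYcard, hz, ?_⟩
  set R : V → V → Prop := fun u v => L j (u, z1) (v, z2) with hRdef
  set G1 := (arcs M).filter (fun p => ∀ k, ¬ (lab k p.1 = lab k p.2 ∧ Even (lab k p.1).val)) with hG1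
  set G2 := (arcs M).filter (fun p => (¬ weq R p.1 p.2) ∧
      ∀ k, k ≠ j → ¬ (lab k p.1 = lab k p.2 ∧ Even (lab k p.1).val)) with hG2
  set G3 := (arcs M).filter (fun p => weq R p.1 p.2 ∧ wsz R p.1 ≤ s) with hG3
  have hcover : arcs M ⊆ (G1 ∪ G2) ∪ (G3 ∪
      (Finset.univ.erase j).biUnion (fun k => (arcs M).filter (fun p => lab k p.1 = lab k p.2 ∧ Even (lab k p.1).val))) := by
    intro p hp
    by_cases hc : ∀ k, k ≠ j → ¬ (lab k p.1 = lab k p.2 ∧ Even (lab k p.1).val)
    · by_cases hwq : weq R p.1 p.2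
      · by_cases hsz : wsz R p.1 ≤ s
        · exact Finset.mem_union_right _ (Finset.mem_union_left _ (Finset.mem_filter.2 ⟨hp, hwq, hsz⟩))
        · apply Finset.mem_union_left
          apply Finset.mem_union_left
          refine Finset.mem_filter.2 ⟨hp, ?_⟩
          intro k
          by_cases hk : k = j
          · subst hk
            rintro ⟨h1, h2⟩
            apply hsz
            refine le_trans (Finset.card_le_card ?_) (hsize k (lab k p.1) h2)
            intro u hu
            exact Finset.mem_filter.2 ⟨Finset.mem_univ _, hblk k u p.1 (Finset.mem_filter.1 hu).2⟩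
          · exact hc k hk
      · exact Finset.mem_union_left _ (Finset.mem_union_right _ (Finset.mem_filter.2 ⟨hp, hwq, hc⟩))
    · push Not at hc
      obtain ⟨k, hk, hk2⟩ := hc
      exact Finset.mem_union_right _ (Finset.mem_union_right _ (Finset.mem_biUnion.2
        ⟨k, Finset.mem_erase.2 ⟨hk, Finset.mem_univ _⟩, Finset.mem_filter.2 ⟨hp, hk2⟩⟩))
  have hc1 := (Finset.card_le_card hcover).trans ((Finset.card_union_le _ _).trans
    (Nat.add_le_add (Finset.card_union_le _ _) (Finset.card_union_le _ _)))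
  have hc2 := Finset.card_biUnion_le (s := Finset.univ.erase j)
    (t := fun k => (arcs M).filter (fun p => lab k p.1 = lab k p.2 ∧ Even (lab k p.1).val))
  have hd : 1 ≤ d := by
    have := j.2
    omega
  have hc3 : b * ∑ k ∈ Finset.univ.erase j, ((arcs M).filter (fun p => lab k p.1 = lab k p.2 ∧ Even (lab k p.1).val)).card ≤
      (d - 1) * ((b + 2) * Fintype.card V) := by
    rw [Finset.mul_sum]
    refine (Finset.sum_le_card_nsmul _ _ _ (fun k _ => hbad k)).trans (le_of_eq ?_)
    rw [Finset.card_erase_of_mem (Finset.mem_univ _), Finset.card_univ, Fintype.card_fin, smul_eq_mul]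
  rw [eIn_univ]
  have hd2 : d * ((b + 2) * Fintype.card V) = (d - 1) * ((b + 2) * Fintype.card V) + (b + 2) * Fintype.card V := by
    obtain ⟨e, rfl⟩ : ∃ e, d = e + 1 := ⟨d - 1, by omega⟩
    simp only [Nat.add_sub_cancel]
    ring
  have hg1 : b * G1.card ≤ b * (w ^ 2 * (2 * (Fintype.card V / s) + 2) ^ d) := Nat.mul_le_mul_left _ hgood
  have hg2 : b * G2.card ≤ b * (2 * (w ^ 2 * (2 * (Fintype.card V / s) + 2) ^ d)) := Nat.mul_le_mul_left _ hdir
  have hfin : b * (arcs M).card ≤ b * G1.card + b * G2.card + (b * G3.card +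
      b * ∑ k ∈ Finset.univ.erase j, ((arcs M).filter (fun p => lab k p.1 = lab k p.2 ∧ Even (lab k p.1).val)).card) := by
    rw [← Nat.mul_add, ← Nat.mul_add, ← Nat.mul_add]
    exact Nat.mul_le_mul_left _ (hc1.trans (by omega))
  have e3 : b * (2 * (w ^ 2 * (2 * (Fintype.card V / s) + 2) ^ d)) = 2 * (b * (w ^ 2 * (2 * (Fintype.card V / s) + 2) ^ d)) := by ring
  rw [e3] at hg2
  omega

end Pool.Agent.BoolWidth
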