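import Pool.Agent.Lib_MP_0cf6e1_t.TurnL
import Pool.Agent.Lib_MP_0cf6e1_b.PBool

/-!
# The stack of `T` copies of a poset (ordinal sum)
-/

set_option autoImplicit false

open scoped Classical

namespace Pool.Agent.BoolTurn

open Pool.Agent.BoolWidth

/-- `T` copies of `X` on top of each other -/
def Stk (T : ℕ) (X : Type) : Type := Fin T × X

instance stkFintype (T : ℕ) (X : Type) [Fintype X] : Fintype (Stk T X) :=
  inferInstanceAs (Fintype (Fin T × X))

instance stkPO (T : ℕ) (X : Type) [PartialOrder X] : PartialOrder (Stk T X) where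
  le p q := p.1 < q.1 ∨ (p.1 = q.1 ∧ p.2 ≤ q.2)
  le_refl p := Or.inr ⟨rfl, le_refl _⟩
  le_trans p q r := by
    rintro (h1 | ⟨h1, h2⟩) (h3 | ⟨h3, h4⟩)
    · exact Or.inl (lt_trans h1 h3)
    · exact Or.inl (h3 ▸ h1)
    · exact Or.inl (h1 ▸ h3)
    · exact Or.inr ⟨h1.trans h3, h2.trans h4⟩
  le_antisymm p q := by
    rintro (h1 | ⟨h1, h2⟩) (h3 | ⟨h3, h4⟩)
    · exact absurd h3 (lt_asymm h1)
    · exact absurd h3.symm (ne_of_lt h1)
    · exact absurd h1.symm (ne_of_lt h3)
    · exact Prod.ext h1 (le_antisymm h2 h4)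

theorem stk_le {T : ℕ} {X : Type} [PartialOrder X] (p q : Stk T X) :
    p ≤ q ↔ p.1 < q.1 ∨ (p.1 = q.1 ∧ p.2 ≤ q.2) := Iff.rfl

theorem stk_lt {T : ℕ} {X : Type} [PartialOrder X] (p q : Stk T X) :
    p < q ↔ p.1 < q.1 ∨ (p.1 = q.1 ∧ p.2 < q.2) := by
  rw [lt_iff_le_not_ge, stk_le, stk_le]
  constructor
  · rintro ⟨h1 | ⟨h1, h2⟩, h3⟩
    · exact Or.inl h1
    · refine Or.inr ⟨h1, lt_of_le_not_ge h2 fun h4 => h3 (Or.inr ⟨h1.symm, h4⟩)⟩
  · rintro (h1 | ⟨h1, h2⟩)
    · refine ⟨Or.inl h1, ?_⟩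
      rintro (h3 | ⟨h3, -⟩)
      · exact lt_asymm h1 h3
      · exact (ne_of_lt h1) h3.symm
    · refine ⟨Or.inr ⟨h1, h2.le⟩, ?_⟩
      rintro (h3 | ⟨-, h3⟩)
      · exact (ne_of_lt h3) h1.symm
      · exact not_lt_of_ge h3 h2

theorem stk_card (T : ℕ) (X : Type) [Fintype X] :
    Fintype.card (Stk T X) = T * Fintype.card X := by
  have h : Fintype.card (Stk T X) = Fintype.card (Fin T × X) := rfl
  rw [h, Fintype.card_prod, Fintype.card_fin]

/-- the copy of `x` at level `t` -/
def mkS {T : ℕ} {X : Type} (t : Fin T) (x : X) : Stk T X := (t, x)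

/-- the elements of `S` at level `t` -/
noncomputable def lvl {T : ℕ} {X : Type} (S : Finset (Stk T X)) (t : Fin T) : Finset X :=
  (S.filter fun p => p.1 = t).image fun p => p.2

theorem mem_lvl {T : ℕ} {X : Type} (S : Finset (Stk T X)) (t : Fin T) (x : X) :
    x ∈ lvl S t ↔ mkS t x ∈ S := by
  rw [lvl, Finset.mem_image]
  constructor
  · rintro ⟨p, hp, rfl⟩
    rw [Finset.mem_filter] at hp
    obtain ⟨h1, rfl⟩ := hp
    exact h1
  · intro h
    exact ⟨mkS t x, Finset.mem_filter.2 ⟨h, rfl⟩, rfl⟩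

theorem lvl_card {T : ℕ} {X : Type} (S : Finset (Stk T X)) (t : Fin T) :
    (lvl S t).card = (S.filter fun p => p.1 = t).card := by
  rw [lvl, Finset.card_image_of_injOn]
  intro p hp q hq h
  have h1 := (Finset.mem_filter.1 (Finset.mem_coe.1 hp)).2
  have h2 := (Finset.mem_filter.1 (Finset.mem_coe.1 hq)).2
  exact Prod.ext (h1.trans h2.symm) h

theorem lvl_sum {T : ℕ} {X : Type} (S : Finset (Stk T X)) : ∑ t, (lvl S t).card = S.card := by
  rw [Finset.card_eq_sum_card_fiberwise (f := fun p : Stk T X => p.1) (t := Finset.univ)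
    (fun p _ => Finset.mem_univ _)]
  exact Finset.sum_congr rfl fun t _ => lvl_card S t

theorem stk_width (T : ℕ) (hT : 1 ≤ T) (X : Type) [PartialOrder X] (w : ℕ) (h : HasWidth X w) :
    HasWidth (Stk T X) w := by
  obtain ⟨⟨s, hs, hsc⟩, hmax⟩ := h
  constructor
  · refine ⟨s.map ⟨fun x => mkS ⟨0, hT⟩ x, fun x y hxy => congrArg Prod.snd hxy⟩, ?_, ?_⟩
    · intro p hp q hq hpq
      rw [Finset.mem_coe, Finset.mem_map] at hp hq
      obtain ⟨x, hx, rfl⟩ := hp
      obtain ⟨y, hy, rfl⟩ := hq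
      intro hle
      have hxy : x ≠ y := by
        rintro rfl
        exact hpq rfl
      apply hs (Finset.mem_coe.2 hx) (Finset.mem_coe.2 hy) hxy
      rcases (stk_le _ _).1 hle with h1 | ⟨-, h1⟩
      · exact absurd h1 (lt_irrefl _)
      · exact h1
    · rw [Finset.card_map, hsc]
  · intro S hS
    rcases S.eq_empty_or_nonempty with h0 | ⟨p0, hp0⟩
    · rw [h0]
      exact Nat.zero_le _
    · have hlev : ∀ p ∈ S, p.1 = p0.1 := by
        intro p hp
        by_contra hne
        have hpp : p ≠ p0 := fun h => hne (by rw [h])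
        rcases lt_or_gt_of_ne hne with h1 | h1
        · exact hS (Finset.mem_coe.2 hp) (Finset.mem_coe.2 hp0) hpp (Or.inl h1)
        · exact hS (Finset.mem_coe.2 hp0) (Finset.mem_coe.2 hp) hpp.symm (Or.inl h1)
      have hcard : (lvl S p0.1).card = S.card := by
        rw [lvl_card, Finset.filter_true_of_mem hlev]
      rw [← hcard]
      apply hmax
      intro x hx y hy hxy hle
      rw [Finset.mem_coe, mem_lvl] at hx hy
      refine hS (Finset.mem_coe.2 hx) (Finset.mem_coe.2 hy) ?_ (Or.inr ⟨rfl, hle⟩)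
      intro h
      exact hxy (congrArg Prod.snd h)

/-- levels with many elements of `S` contain a turning point each -/
theorem stack_turns (X : Type) [Fintype X] [PartialOrder X] (w k : ℕ) (hk : 1 ≤ k)
    (hX : ∀ (d : ℕ) (L : Fin d → X → X → Prop) (τ : (Fin d → Prop) → Prop),
      IsBoolRealizer X L τ → d < w → ∀ (i : Fin d) (S : Finset X), IsChain (· ≤ ·) (S : Set X) →
        Mono (L i) S → 2 * k * S.card < Fintype.card X)
    (T d : ℕ) (L : Fin d → Stk T X → Stk T X → Prop) (τ : (Fin d → Prop) → Prop)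
    (hL : IsBoolRealizer (Stk T X) L τ) (hd : d < w) (i : Fin d) (S : Finset (Stk T X))
    (hS : IsChain (· ≤ ·) (S : Set (Stk T X)))
    (hc : Fintype.card (Stk T X) ≤ k * S.card) :
    Fintype.card (Stk T X) ≤ 2 * k * Fintype.card X * turns (L i) S := by
  set N := Fintype.card X with hN
  -- big levels
  set B : Finset (Fin T) := Finset.univ.filter fun t => N ≤ 2 * k * (lvl S t).card with hB
  have hinjt : ∀ t : Fin T, Function.Injective fun x : X => mkS t x :=
    fun t x y hxy => congrArg Prod.snd hxy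
  have hlvlt : ∀ (t : Fin T) (x y : X), mkS t x < mkS t y ↔ x < y := by
    intro t x y
    rw [stk_lt]
    constructor
    · rintro (h | ⟨-, h⟩)
      · exact absurd h (lt_irrefl _)
      · exact h
    · exact fun h => Or.inr ⟨rfl, h⟩
  have hturn : ∀ t ∈ B, ∃ y : X, IsTurn (L i) S (mkS t y) := by
    intro t ht
    have hbig : N ≤ 2 * k * (lvl S t).card := (Finset.mem_filter.1 ht).2
    set Lt : Fin d → X → X → Prop := fun j x y => L j (mkS t x) (mkS t y) with hLt
    have hst : ∀ j, IsStrictTotalOrder X (Lt j) := by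
      intro j
      have h0 : IsStrictTotalOrder (Stk T X) (L j) := hL.1 j
      exact (RelEmbedding.preimage (⟨fun x : X => mkS t x, hinjt t⟩ : X ↪ Stk T X) (L j)).isStrictTotalOrder
    have hR : IsBoolRealizer X Lt τ := by
      refine ⟨hst, ?_⟩
      intro x y hxy
      rw [← hlvlt t x y]
      exact hL.2 _ _ fun h => hxy (congrArg Prod.snd h)
    have hch : IsChain (· ≤ ·) ((lvl S t : Finset X) : Set X) := by
      intro x hx y hy hxy
      rw [Finset.mem_coe, mem_lvl] at hx hy
      have hne : mkS t x ≠ mkS t y := fun h => hxy (congrArg Prod.snd h)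
      rcases hS (Finset.mem_coe.2 hx) (Finset.mem_coe.2 hy) hne with h | h
      · left
        rcases (stk_le _ _).1 h with h1 | ⟨-, h1⟩
        · exact absurd h1 (lt_irrefl _)
        · exact h1
      · right
        rcases (stk_le _ _).1 h with h1 | ⟨-, h1⟩
        · exact absurd h1 (lt_irrefl _)
        · exact h1
    have hnm : ¬ Mono (Lt i) (lvl S t) := by
      intro hm
      have := hX d Lt τ hR hd i (lvl S t) hch hm
      omega
    have hsti : IsStrictTotalOrder X (Lt i) := hst i
    obtain ⟨y, hy, x, hx, z, hz, hxy, hyz, h1, h2, h3⟩ := exists_turn (Lt i) (lvl S t) hch hnm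
    rw [mem_lvl] at hy hx hz
    refine ⟨y, hy, mkS t x, hx, mkS t z, hz, (hlvlt t x y).2 hxy, (hlvlt t y z).2 hyz, ?_, ?_, h3⟩
    · rintro ⟨s, u⟩ hu ⟨hu1, hu2⟩
      have hs : s = t := by
        rcases (stk_lt _ _).1 hu1 with g1 | ⟨g1, -⟩
        · rcases (stk_lt _ _).1 hu2 with g2 | ⟨g2, -⟩
          · exact absurd g1 (lt_asymm g2)
          · exact g2
        · exact g1.symm
      subst hs
      exact h1 u ((mem_lvl _ _ _).2 hu) ⟨(hlvlt s x u).1 hu1, (hlvlt s u y).1 hu2⟩
    · rintro ⟨s, u⟩ hu ⟨hu1, hu2⟩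
      have hs : s = t := by
        rcases (stk_lt _ _).1 hu1 with g1 | ⟨g1, -⟩
        · rcases (stk_lt _ _).1 hu2 with g2 | ⟨g2, -⟩
          · exact absurd g1 (lt_asymm g2)
          · exact g2
        · exact g1.symm
      subst hs
      exact h2 u ((mem_lvl _ _ _).2 hu) ⟨(hlvlt s y u).1 hu1, (hlvlt s u z).1 hu2⟩
  have hBt : B.card ≤ turns (L i) S := by
    rcases isEmpty_or_nonempty X with hX0 | hX0
    · rcases B.eq_empty_or_nonempty with h0 | ⟨t, ht⟩
      · rw [h0]
        exact Nat.zero_le _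
      · obtain ⟨y, -⟩ := hturn t ht
        exact hX0.elim y
    choose! y hy using hturn
    refine Finset.card_le_card_of_injOn (fun t => mkS t (y t)) ?_ ?_
    · intro t ht
      rw [Finset.mem_coe, Finset.mem_filter]
      exact ⟨(hy t (Finset.mem_coe.1 ht)).1, hy t (Finset.mem_coe.1 ht)⟩
    · intro t _ t' _ h
      exact congrArg Prod.fst h
  have hsum : 2 * k * S.card ≤ 2 * k * N * B.card + N * (T - B.card) := by
    have e1 : ∀ t : Fin T, 2 * k * (lvl S t).card ≤ if t ∈ B then 2 * k * N else N := by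
      intro t
      split_ifs with ht
      · apply Nat.mul_le_mul_left
        exact Finset.card_le_univ _
      · rw [hB, Finset.mem_filter] at ht
        have : ¬ N ≤ 2 * k * (lvl S t).card := fun h => ht ⟨Finset.mem_univ _, h⟩
        omega
    calc 2 * k * S.card = ∑ t, 2 * k * (lvl S t).card := by rw [← lvl_sum S, Finset.mul_sum]
      _ ≤ ∑ t, (if t ∈ B then 2 * k * N else N) := Finset.sum_le_sum fun t _ => e1 t
      _ = 2 * k * N * B.card + N * (T - B.card) := by
          rw [Finset.sum_ite, Finset.sum_const, Finset.sum_const, smul_eq_mul, smul_eq_mul,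
            Finset.filter_mem_eq_inter, Finset.univ_inter]
          have e2 : (Finset.univ.filter fun t => t ∉ B).card = T - B.card := by
            have := Finset.card_compl B
            rw [Fintype.card_fin] at this
            rw [← this]
            congr 1
            ext t
            simp
          rw [e2]
          ring
  have hBT : B.card ≤ T := by
    have := Finset.card_le_univ B
    rwa [Fintype.card_fin] at this
  rw [stk_card] at hc ⊢
  rw [← hN] at hc ⊢
  have h5 : 2 * (T * N) ≤ 2 * k * N * B.card + N * (T - B.card) := by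
    calc 2 * (T * N) ≤ 2 * (k * S.card) := Nat.mul_le_mul_left 2 hc
      _ = 2 * k * S.card := by ring
      _ ≤ _ := hsum
  have h6 : N * (T - B.card) ≤ T * N := by
    rw [Nat.mul_comm T N]
    exact Nat.mul_le_mul_left N (Nat.sub_le _ _)
  have h7 : T * N ≤ 2 * k * N * B.card := by omega
  exact h7.trans (Nat.mul_le_mul_left _ hBt)

end Pool.Agent.BoolTurn
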