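import Pool.Agent.Lib_MP_0cf6e1_t.Box2
import Pool.Agent.Lib_MP_0cf6e1_t.Exist2
import Pool.Agent.Lib_MP_0cf6e1_t.Stack
import Pool.Agent.Lib_MP_0cf6e1_b.PMain

/-!
# No order of a small Boolean realizer is monotone on a large chain
-/

set_option autoImplicit false

open scoped Classical

namespace Pool.Agent.BoolTurn

open Pool.Agent.BoolWidth

/-- the final contradiction -/
theorem partA_arith (w k d N e y z Q : ℕ) (hw : 2 ≤ w) (hk : 1 ≤ k) (hN : 0 < N) (hd : d < w)
    (hQ : 1 ≤ Q)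
    (h1 : N ≤ 4 * k * y) (h2 : 64 * w * k * z ≤ N)
    (h3 : 8 * (64 * w * k) * e + 8 * (64 * w * k) * y ≤ d * ((8 * (64 * w * k) + 2) * N) +
      8 * (64 * w * k) * z + 3 * (8 * (64 * w * k) * (w ^ 2 * Q ^ d)))
    (h4 : 2 * (64 * w * k - 1) * ((w - 1) * N) ≤ 2 * (64 * w * k - 1) * e + (w - 1) * N)
    (h5 : w * (64 * w * k) * Q ^ (w - 1) ≤ 2 * N) : False := by
  obtain ⟨v, rfl⟩ : ∃ v, w = v + 1 := ⟨w - 1, by omega⟩
  obtain ⟨W, hW⟩ : ∃ W, 64 * (v + 1) * k = W + 1 := by
    refine ⟨64 * (v + 1) * k - 1, ?_⟩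
    have : 1 ≤ 64 * (v + 1) * k := Nat.mul_pos (by omega) (by omega)
    omega
  have hWbig : 127 ≤ W := by
    have : 64 * (v + 1) * 1 ≤ 64 * (v + 1) * k := Nat.mul_le_mul_left _ hk
    omega
  have hWk : (W + 1) = 64 * ((v + 1) * k) := by rw [← hW]; ring
  rw [hW] at h2 h3 h4 h5
  simp only [Nat.add_sub_cancel] at h4 h5
  have hP : Q ^ d ≤ Q ^ v := Nat.pow_le_pow_right hQ (by omega)
  have g1 : d * ((8 * (W + 1) + 2) * N) ≤ v * ((8 * (W + 1) + 2) * N) :=
    Nat.mul_le_mul_right _ (by omega)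
  have g2 : 3 * (8 * (W + 1) * ((v + 1) ^ 2 * Q ^ d)) ≤ 48 * (v + 1) * N := by
    calc 3 * (8 * (W + 1) * ((v + 1) ^ 2 * Q ^ d)) ≤ 3 * (8 * (W + 1) * ((v + 1) ^ 2 * Q ^ v)) := by
          gcongr
      _ = 24 * (v + 1) * ((v + 1) * (W + 1) * Q ^ v) := by ring
      _ ≤ 24 * (v + 1) * (2 * N) := Nat.mul_le_mul_left _ h5
      _ = _ := by ring
  have g3 : 8 * (W + 1) * z ≤ 8 * N := by
    calc 8 * (W + 1) * z = 8 * ((W + 1) * z) := by ring
      _ ≤ 8 * N := Nat.mul_le_mul_left _ h2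
  have g4 : v * N ≤ 2 * e := by
    have e1 : 2 * W * (v * N) ≤ 2 * W * e + v * N := h4
    have e2 : W * (v * N) + v * N ≤ 2 * W * (v * N) := by nlinarith [Nat.zero_le (v * N)]
    have e3 : W * (v * N) ≤ W * (2 * e) := by
      have : W * (2 * e) = 2 * W * e := by ring
      omega
    exact Nat.le_of_mul_le_mul_left e3 (by omega)
  have g5 : 8 * W * (v * N) ≤ 8 * (W + 1) * e := by
    have e1 : 4 * (2 * W * (v * N)) ≤ 4 * (2 * W * e + v * N) := Nat.mul_le_mul_left _ h4
    nlinarith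
  have g6 : 8 * (W + 1) * y ≤ 58 * ((v + 1) * N) := by
    have e1 : v * ((8 * (W + 1) + 2) * N) = 8 * W * (v * N) + 10 * (v * N) := by ring
    have e2 : 58 * ((v + 1) * N) = 58 * (v * N) + 58 * N := by ring
    have e3 : 48 * (v + 1) * N = 48 * (v * N) + 48 * N := by ring
    omega
  have g7 : 8 * (W + 1) * N ≤ 232 * (((v + 1) * k) * N) := by
    calc 8 * (W + 1) * N ≤ 8 * (W + 1) * (4 * k * y) := Nat.mul_le_mul_left _ h1
      _ = 4 * k * (8 * (W + 1) * y) := by ring
      _ ≤ 4 * k * (58 * ((v + 1) * N)) := Nat.mul_le_mul_left _ g6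
      _ = _ := by ring
  rw [hWk] at g7
  have g8 : 0 < ((v + 1) * k) * N := by positivity
  have g9 : 8 * (64 * ((v + 1) * k)) * N = 512 * (((v + 1) * k) * N) := by ring
  omega

/-- no order of a small realizer is monotone on a large chain -/
theorem partA (w k : ℕ) (hw : 2 ≤ w) (hk : 1 ≤ k) :
    ∃ (X : Type) (_ : Fintype X) (_ : PartialOrder X), HasWidth X w ∧
      ∀ (d : ℕ) (L : Fin d → X → X → Prop) (τ : (Fin d → Prop) → Prop),
        IsBoolRealizer X L τ → d < w → ∀ (i : Fin d) (S : Finset X),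
          IsChain (· ≤ ·) (S : Set X) → Mono (L i) S → k * S.card < Fintype.card X := by
  have hWbig : 64 * 2 * 1 ≤ 64 * w * k := Nat.mul_le_mul (Nat.mul_le_mul_left _ hw) hk
  have hWw : w + 1 ≤ 64 * w * k := by
    calc w + 1 ≤ 64 * w * 1 := by omega
      _ ≤ 64 * w * k := Nat.mul_le_mul_left _ hk
  obtain ⟨V, fV, M, s, hs, hN, harc, hsp, hfin, hg⟩ := exist_sub w (64 * w * k) hw (by omega) hWw
  choose n0 hn0 hbox using fun d => box2 M s (64 * w * k) (8 * (64 * w * k)) d k hs hk hN hg hsp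
  obtain ⟨n, hn⟩ : ∃ n, n = (Finset.range w).sup n0 + 2 * k := ⟨_, rfl⟩
  refine ⟨(V × Fin n) ⊕ Fin w, inferInstance, xpo M n, xwidth M n, ?_⟩
  intro d L τ hLτ hd i S hS hmono
  by_contra hcon
  push Not at hcon
  letI := xpo M n
  have hltdef : ∀ x y : (V × Fin n) ⊕ Fin w, x < y ↔ XLt M n x y := fun x y => Iff.rfl
  have hdn : n0 d ≤ n := by
    have := Finset.le_sup (f := n0) (Finset.mem_range.2 hd)
    omega
  obtain ⟨hL, hτ⟩ := hLτ
  -- restriction to the lower part
  have hL' : ∀ k, IsStrictTotalOrder (V × Fin n) (fun x y => L k (Sum.inl x) (Sum.inl y)) := by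
    intro k
    have := hL k
    refine { trichotomous := ?_, irrefl := ?_, trans := ?_ }
    · intro x y hxy hyx
      rcases trichotomous_of (L k) (Sum.inl x) (Sum.inl y) with h | h | h
      · exact absurd h hxy
      · exact Sum.inl.inj h
      · exact absurd h hyx
    · intro x h
      exact irrefl_of (L k) _ h
    · intro x y z h1 h2
      exact trans_of (L k) h1 h2
  have hτ' : ∀ x y : V × Fin n, x ≠ y → (liftLt M.lt M.E (fun _ _ => 0) n x y ↔
      τ (fun k => L k (Sum.inl x) (Sum.inl y))) := by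
    intro x y hxy
    have h1 := hτ (Sum.inl x) (Sum.inl y) (fun h => hxy (Sum.inl.inj h))
    rw [← h1]
    exact Iff.rfl
  set S' : Finset (V × Fin n) := Finset.univ.filter (fun p => (Sum.inl p : (V × Fin n) ⊕ Fin w) ∈ S)
    with hS'
  have hchain : ∀ x ∈ S', ∀ y ∈ S', x ≠ y → liftLt M.lt M.E (fun _ _ => 0) n x y ∨
        liftLt M.lt M.E (fun _ _ => 0) n y x := by
    intro x hx y hy hxy
    have hx' := (Finset.mem_filter.1 hx).2
    have hy' := (Finset.mem_filter.1 hy).2
    rcases hS (Finset.mem_coe.2 hx') (Finset.mem_coe.2 hy') (fun h => hxy (Sum.inl.inj h)) with h | h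
    · rcases h.eq_or_lt with h | h
      · exact absurd (Sum.inl.inj h) hxy
      · exact Or.inl h
    · rcases h.eq_or_lt with h | h
      · exact absurd (Sum.inl.inj h).symm hxy
      · exact Or.inr h
  have hmono' : (∀ x ∈ S', ∀ y ∈ S', liftLt M.lt M.E (fun _ _ => 0) n x y →
        L i (Sum.inl x) (Sum.inl y)) ∨
        (∀ x ∈ S', ∀ y ∈ S', liftLt M.lt M.E (fun _ _ => 0) n x y →
        L i (Sum.inl y) (Sum.inl x)) := by
    rcases hmono with h | h
    · exact Or.inl fun x hx y hy hxy => h _ (Finset.mem_filter.1 hx).2 _ (Finset.mem_filter.1 hy).2 hxy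
    · exact Or.inr fun x hx y hy hxy => h _ (Finset.mem_filter.1 hx).2 _ (Finset.mem_filter.1 hy).2 hxy
  have hScard : S.card ≤ S'.card + 1 := by
    have h1 : S ⊆ S'.map ⟨fun p => (Sum.inl p : (V × Fin n) ⊕ Fin w), Sum.inl_injective⟩ ∪
        (Finset.univ.filter (fun a : Fin w => (Sum.inr a : (V × Fin n) ⊕ Fin w) ∈ S)).map
          ⟨fun a => (Sum.inr a : (V × Fin n) ⊕ Fin w), Sum.inr_injective⟩ := by
      intro x hx
      rcases x with x | x
      · exact Finset.mem_union_left _ (Finset.mem_map.2 ⟨x, Finset.mem_filter.2 ⟨Finset.mem_univ _, hx⟩, rfl⟩)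
      · exact Finset.mem_union_right _ (Finset.mem_map.2 ⟨x, Finset.mem_filter.2 ⟨Finset.mem_univ _, hx⟩, rfl⟩)
    have h2 : (Finset.univ.filter (fun a : Fin w => (Sum.inr a : (V × Fin n) ⊕ Fin w) ∈ S)).card ≤ 1 := by
      rw [Finset.card_le_one]
      intro a ha b hb
      by_contra hne
      have ha' := (Finset.mem_filter.1 ha).2
      have hb' := (Finset.mem_filter.1 hb).2
      rcases hS (Finset.mem_coe.2 ha') (Finset.mem_coe.2 hb') (fun h => hne (Sum.inr.inj h)) with h | h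
      · rcases h.eq_or_lt with h | h
        · exact hne (Sum.inr.inj h)
        · exact h
      · rcases h.eq_or_lt with h | h
        · exact hne (Sum.inr.inj h).symm
        · exact h
    have h3 := (Finset.card_le_card h1).trans (Finset.card_union_le _ _)
    rw [Finset.card_map, Finset.card_map] at h3
    omega
  have hcard : Fintype.card V * n ≤ 2 * k * S'.card := by
    rw [Fintype.card_sum, Fintype.card_prod, Fintype.card_fin, Fintype.card_fin] at hcon
    have h1 : k * S.card ≤ k * S'.card + k := by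
      calc k * S.card ≤ k * (S'.card + 1) := Nat.mul_le_mul_left _ hScard
        _ = _ := by ring
    have h2 : n ≤ Fintype.card V * n := Nat.le_mul_of_pos_left _ hN
    have h3 : 2 * k * S'.card = 2 * (k * S'.card) := by ring
    omega
  obtain ⟨y, z, h1, h2, h3⟩ := hbox d n hdn _ τ hL' hτ' i S' hchain hmono' hcard
  exact partA_arith w k d (Fintype.card V) (eIn M.E Finset.univ) y z _ hw hk hN hd (by omega) h1 h2 h3 harc hfin

/-- main theorem -/
theorem main_turns (w k : ℕ) (hw : 2 ≤ w) :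
    ∃ C : ℕ, ∀ N : ℕ, ∃ (X : Type) (_ : Fintype X) (_ : PartialOrder X), HasWidth X w ∧
      N ≤ Fintype.card X ∧ ∀ (d : ℕ) (L : Fin d → X → X → Prop) (τ : (Fin d → Prop) → Prop),
        IsBoolRealizer X L τ → d < w → ∀ (i : Fin d) (S : Finset X),
          IsChain (· ≤ ·) (S : Set X) → Fintype.card X ≤ k * S.card →
            Fintype.card X ≤ C * turns (L i) S := by
  -- replace `k` by `k + 1`
  obtain ⟨X, fX, pX, hX, hm⟩ := partA w (2 * (k + 1)) hw (by omega)
  refine ⟨2 * (k + 1) * Fintype.card X, fun N => ?_⟩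
  have hne : 1 ≤ Fintype.card X := by
    obtain ⟨s, -, hs⟩ := hX.1
    have := Finset.card_le_univ s
    omega
  refine ⟨Stk (N + 1) X, inferInstance, inferInstance, stk_width (N + 1) (by omega) X w hX, ?_, ?_⟩
  · rw [stk_card]
    nlinarith
  · intro d L τ hL hd i S hS hc
    exact stack_turns X w (k + 1) (by omega) hm (N + 1) d L τ hL hd i S hS
      (hc.trans (Nat.mul_le_mul_right _ (by omega)))

end Pool.Agent.BoolTurn
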