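import Pool.Agent.Lib_MP_0cf6e1_t.TDefs

set_option autoImplicit false

open scoped Classical

namespace Pool.Agent.BoolTurn

theorem isTurn_swap {X : Type} [PartialOrder X] {R : X → X → Prop} {S : Finset X} {y : X}
    (h : IsTurn (fun a b => R b a) S y) : IsTurn R S y := by
  obtain ⟨h1, x, hx, z, hz, h2, h3, h4, h5, h6⟩ := h
  exact ⟨h1, x, hx, z, hz, h2, h3, h4, h5, h6.symm⟩

theorem chain_max {X : Type} [PartialOrder X] (S : Finset X) (hS : IsChain (· ≤ ·) (S : Set X))
    (hne : S.Nonempty) : ∃ z ∈ S, ∀ u ∈ S, u ≤ z := by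
  obtain ⟨z, hz, hmax⟩ := S.exists_maximal hne
  refine ⟨z, hz, ?_⟩
  intro u hu
  by_cases huz : u = z
  · exact le_of_eq huz
  · rcases hS (Finset.mem_coe.2 hu) (Finset.mem_coe.2 hz) huz with h | h
    · exact h
    · exact hmax hu h

/-- the induction step when `R` is increasing below the maximum -/
theorem turn_step {X : Type} [PartialOrder X] (R : X → X → Prop)
    (htot : ∀ a b, a ≠ b → R a b ∨ R b a) (htr : ∀ a b c, R a b → R b c → R a c)
    (S : Finset X) (hS : IsChain (· ≤ ·) (S : Set X)) {z : X} (hz : z ∈ S) (hmax : ∀ u ∈ S, u ≤ z)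
    (hinc : ∀ x ∈ S.erase z, ∀ y ∈ S.erase z, x < y → R x y) :
    (∃ y, IsTurn R S y) ∨ Mono R S := by
  have hSz : IsChain (· ≤ ·) ((S.erase z : Finset X) : Set X) :=
    hS.mono (Finset.coe_subset.2 (Finset.erase_subset z S))
  rcases (S.erase z).eq_empty_or_nonempty with h0 | h0
  · right
    left
    intro x hx y hy hxy
    have hx' : x ≠ z := (hxy.trans_le (hmax y hy)).ne
    have : x ∈ S.erase z := Finset.mem_erase.2 ⟨hx', hx⟩
    rw [h0] at this
    exact absurd this (Finset.notMem_empty x)
  · obtain ⟨y, hy, hymax⟩ := chain_max _ hSz h0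
    have hyS : y ∈ S := Finset.mem_of_mem_erase hy
    have hyz : y < z := lt_of_le_of_ne (hmax y hyS) (Finset.ne_of_mem_erase hy)
    have hle : ∀ u ∈ S, u < z → u ≤ y := fun u hu huz => hymax u (Finset.mem_erase.2 ⟨huz.ne, hu⟩)
    rcases htot y z hyz.ne with hR | hR
    · right
      left
      intro a ha b hb hab
      by_cases hbz : b = z
      · subst hbz
        by_cases hay : a = y
        · rw [hay]; exact hR
        · have h1 : a < y := lt_of_le_of_ne (hle a ha hab) hay
          exact htr _ _ _ (hinc a (Finset.mem_erase.2 ⟨hab.ne, ha⟩) y hy h1) hR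
      · exact hinc a (Finset.mem_erase.2 ⟨(hab.trans_le (hmax b hb)).ne, ha⟩) b
          (Finset.mem_erase.2 ⟨hbz, hb⟩) hab
    · have hSy : IsChain (· ≤ ·) (((S.erase z).erase y : Finset X) : Set X) :=
        hSz.mono (Finset.coe_subset.2 (Finset.erase_subset y _))
      rcases ((S.erase z).erase y).eq_empty_or_nonempty with h1 | h1
      · right
        right
        intro a ha b hb hab
        have haz : a ≠ z := (hab.trans_le (hmax b hb)).ne
        have hay : a = y := by
          by_contra hne
          have : a ∈ (S.erase z).erase y := Finset.mem_erase.2 ⟨hne, Finset.mem_erase.2 ⟨haz, ha⟩⟩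
          rw [h1] at this
          exact absurd this (Finset.notMem_empty a)
        have hbz : b = z := by
          by_contra hne
          have h2 : b ≤ y := hymax b (Finset.mem_erase.2 ⟨hne, hb⟩)
          rw [hay] at hab
          exact absurd hab (not_lt_of_ge h2)
        rw [hay, hbz]
        exact hR
      · left
        obtain ⟨x, hx, hxmax⟩ := chain_max _ hSy h1
        have hxE : x ∈ S.erase z := Finset.mem_of_mem_erase hx
        have hxS : x ∈ S := Finset.mem_of_mem_erase hxE
        have hxy : x < y := lt_of_le_of_ne (hymax x hxE) (Finset.ne_of_mem_erase hx)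
        refine ⟨y, hyS, x, hxS, z, hz, hxy, hyz, ?_, ?_, Or.inl ⟨hinc x hxE y hy hxy, hR⟩⟩
        · rintro u hu ⟨hu1, hu2⟩
          have : u ∈ (S.erase z).erase y :=
            Finset.mem_erase.2 ⟨hu2.ne, Finset.mem_erase.2 ⟨(hu2.trans hyz).ne, hu⟩⟩
          exact absurd hu1 (not_lt_of_ge (hxmax u this))
        · rintro u hu ⟨hu1, hu2⟩
          exact absurd hu1 (not_lt_of_ge (hle u hu hu2))

/-- a linear order which is not monotone on a finite chain has a turning point along it -/
theorem exists_turn {X : Type} [PartialOrder X] (R : X → X → Prop) [IsStrictTotalOrder X R]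
    (S : Finset X) (hS : IsChain (· ≤ ·) (S : Set X)) (h : ¬ Mono R S) : ∃ y, IsTurn R S y := by
  have htot : ∀ a b, a ≠ b → R a b ∨ R b a := by
    intro a b hab
    rcases trichotomous_of R a b with h1 | h1 | h1
    · exact Or.inl h1
    · exact absurd h1 hab
    · exact Or.inr h1
  have htr : ∀ a b c, R a b → R b c → R a c := fun a b c h1 h2 => trans_of R h1 h2
  induction hn : S.card using Nat.strong_induction_on generalizing S with
  | _ n ih =>
    rcases S.eq_empty_or_nonempty with h0 | h0
    · exfalso
      apply h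
      left
      intro x hx
      rw [h0] at hx
      exact absurd hx (Finset.notMem_empty x)
    · obtain ⟨z, hz, hmax⟩ := chain_max S hS h0
      have hSz : IsChain (· ≤ ·) ((S.erase z : Finset X) : Set X) :=
        hS.mono (Finset.coe_subset.2 (Finset.erase_subset z S))
      by_cases hm : Mono R (S.erase z)
      · rcases hm with hm | hm
        · rcases turn_step R htot htr S hS hz hmax hm with h1 | h1
          · exact h1
          · exact absurd h1 h
        · rcases turn_step (fun a b => R b a) (fun a b hab => (htot a b hab).symm)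
            (fun a b c h1 h2 => htr c b a h2 h1) S hS hz hmax hm with ⟨y, hy⟩ | h1
          · exact ⟨y, isTurn_swap hy⟩
          · exact absurd h1.symm h
      · obtain ⟨y, hyS, x, hx, w, hw, h1, h2, h3, h4, h5⟩ := ih (S.erase z).card
          (by rw [← hn]; exact Finset.card_erase_lt_of_mem hz) (S.erase z) hSz hm rfl
        refine ⟨y, Finset.mem_of_mem_erase hyS, x, Finset.mem_of_mem_erase hx, w, Finset.mem_of_mem_erase hw,
          h1, h2, ?_, ?_, h5⟩
        · rintro u hu ⟨hu1, hu2⟩
          by_cases huz : u = z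
          · subst huz
            exact absurd hu2 (not_lt_of_ge (hmax y (Finset.mem_of_mem_erase hyS)))
          · exact h3 u (Finset.mem_erase.2 ⟨huz, hu⟩) ⟨hu1, hu2⟩
        · rintro u hu ⟨hu1, hu2⟩
          by_cases huz : u = z
          · subst huz
            exact absurd hu2 (not_lt_of_ge (hmax w (Finset.mem_of_mem_erase hw)))
          · exact h4 u (Finset.mem_erase.2 ⟨huz, hu⟩) ⟨hu1, hu2⟩

end Pool.Agent.BoolTurn
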